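import Mathlib
import Pool.Agent.P.MP_746f10_nt.Sys

/-! Primes in different cells of a system of linear forms: definitions and the statements of the
parts of the proof. -/

namespace Pool.Agent.P.MP_746f10_nt.Cel

open Finset

/-- no prime divides some value at every point -/
def Adm {ι : Type} (a b : ι → ℕ) : Prop := ∀ p : ℕ, p.Prime → ∃ n : ℕ, ∀ l, ¬ p ∣ a l * n + b l

/-- the logarithm on primes, zero elsewhere -/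
noncomputable def th (n : ℕ) : ℝ := if n.Prime then Real.log n else 0

/-- sets of primes from `P` with product at most `D` -/
def lev (P : Finset ℕ) (D : ℕ) : Finset (Finset ℕ) := P.powerset.filter fun T => ∏ p ∈ T, p ≤ D

/-- more than `m` cells contain a prime value at `n` -/
def Many (m : ℕ) {M K : ℕ} (a b : Fin M × Fin K → ℕ) (n : ℕ) : Prop :=
  ∃ I : Finset (Fin M), m < I.card ∧ ∀ i ∈ I, ∃ s, (a (i, s) * n + b (i, s)).Prime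

open Classical in
/-- the weight for a pair: the collapsed weight in `I` times a Selberg weight in coordinate `j` -/
noncomputable def y2 {κ : Type} [Fintype κ] [DecidableEq κ] (w s0 J R ξ : ℕ) (I : Finset κ)
    (j : κ) (S : Finset (ℕ × κ)) : ℝ :=
  (if S.filter (fun x => x.2 ≠ j) ⊆ AA w R I then yI w s0 J R I (S.filter fun x => x.2 ≠ j) else 0) *
    if ∏ p ∈ sl S j, p ≤ ξ then 1 else 0

/-- a dense subset of a product contains a box with distinct entries -/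
def S_Box : Prop :=
  ∀ r K : ℕ, ∃ C c : ℝ, 0 < C ∧ 0 < c ∧ ∀ (α : Type) [DecidableEq α] (F : Fin r → Finset α)
    (E : Finset (Fin r → α)) (n : ℕ), 1 ≤ n → (∀ i, n ≤ (F i).card) → (∀ t ∈ E, ∀ i, t i ∈ F i) →
    C * (n : ℝ) ^ (-c) * ∏ i, ((F i).card : ℝ) < E.card →
    ∃ x : Fin r × Fin K → α, Function.Injective x ∧ ∀ σ : Fin r → Fin K, (fun i => x (i, σ i)) ∈ E

/-- the cell theorem -/
def S_Cell : Prop :=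
  ∀ m : ℕ, ∃ K : ℕ, 0 < K ∧ ∀ a b : Fin (4 * m + 1) × Fin K → ℕ, (∀ x, 0 < a x) → Adm a b →
    Function.Injective (fun x => (a x, b x)) → ∀ N, ∃ n, N ≤ n ∧ Many m a b n

/-- the cell theorem for normalised systems -/
def S_CellN : Prop :=
  ∀ m : ℕ, ∃ K K0 : ℕ, 0 < K ∧ ∀ (a b : Fin (4 * m + 1) × Fin K → ℕ) (v : ℕ), Nrm a b K0 v →
    ∀ N, ∃ n, N ≤ n ∧ Many m a b n

/-- the final statement -/
def S_Main : Prop :=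
  ∀ m : ℕ, ∃ C c : ℝ, 0 < C ∧ 0 < c ∧ ∀ (K : ℕ) (F : Fin (4 * m + 1) → Finset (ℕ × ℕ)),
    1 ≤ K → (∀ i, K ≤ (F i).card) → (∀ i, ∀ x ∈ F i, 0 < x.1) →
    (Set.ncard {t : Fin (4 * m + 1) → ℕ × ℕ | (∀ i, t i ∈ F i) ∧
      (∀ p : ℕ, p.Prime → ∃ n : ℕ, ∀ i, ¬ p ∣ (t i).1 * n + (t i).2) ∧
      ¬ ∃ I : Finset (Fin (4 * m + 1)), I.card = m + 1 ∧ Set.InjOn t I ∧
        Set.Infinite {n : ℕ | ∀ i ∈ I, ((t i).1 * n + (t i).2).Prime}} : ℝ) ≤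
      C * (K : ℝ) ^ (-c) * ∏ i, ((F i).card : ℝ)

/-- a weighted form of the Bombieri-Vinogradov theorem along one linear form -/
def S_Err : Prop :=
  ∀ a b L u z A : ℕ, 0 < a → a.Coprime b → 2 * L + 4 ≤ u → ∃ (C : ℝ) (w0 : ℕ), ∀ w, w0 ≤ w →
    ∀ P : Finset ℕ, (∀ p ∈ P, p.Prime ∧ ¬ p ∣ a) → ∃ E : Finset ℕ → ℝ,
      (∀ T ∈ lev P (w ^ L), ∀ c : ℕ, (∀ p ∈ T, ¬ p ∣ a * c + b) →
        |∑ n ∈ Ico (w ^ u) (2 * w ^ u), th (a * n + b) * (if n ≡ c [MOD ∏ p ∈ T, p] then 1 else 0) -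
          (w : ℝ) ^ u * (∏ p ∈ a.primeFactors, (p : ℝ) / (p - 1)) *
            ∏ p ∈ T, (p : ℝ) / (p - 1) / p| ≤ E T) ∧ (∀ T, 0 ≤ E T) ∧
      ∑ T ∈ lev P (w ^ L), (z : ℝ) ^ T.card * E T ≤ C * (w : ℝ) ^ u / Real.log w ^ A

/-- the trivial case -/
def S_Err0 : Prop :=
  ∀ (P : Finset ℕ) (D z : ℕ), (∀ p ∈ P, p.Prime) → 2 ≤ D →
    ∑ T ∈ lev P D, (z : ℝ) ^ T.card * ∏ p ∈ T, 1 / (p : ℝ) ≤ (CM * Real.log D) ^ z ∧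
    ∑ T ∈ lev P D, (z : ℝ) ^ T.card ≤ D * (CM * Real.log D) ^ z

/-- the truncation loses only a small factor -/
def S_JJ : Prop :=
  ∀ (κ : Type) [Fintype κ] [DecidableEq κ] (w s0 J M q : ℕ) (I : Finset κ), 2 ≤ w → 1 ≤ s0 →
    1 ≤ q → Iᶜ.card ≤ 2 → 4 * 2 ^ J ≤ M → 4 * q * Fintype.card κ * (J + 1) * CM ≤ M →
    (1 - 1 / (q : ℝ)) * ((a1 w s0 J (w ^ (s0 * M)) ^ 2) ^ Iᶜ.card *
      a2 w s0 J (w ^ (s0 * M)) ^ I.card) ≤ JJ w s0 J (w ^ (s0 * M)) I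

/-- the properties of the weight for a pair -/
def S_Pair : Prop :=
  ∀ (κ : Type) [Fintype κ] [DecidableEq κ] (w s0 J R ξ : ℕ) (I : Finset κ) (j : κ), j ∉ I →
    R ≤ ξ →
    (∀ S, |y2 w s0 J R ξ I j S| ≤ Th w R ^ Iᶜ.card) ∧
    (∀ S ⊆ AA w ξ (insert j I), y2 w s0 J R ξ I j S ≠ 0 → dd Prod.fst S ≤ R * ξ) ∧
    diag Prod.fst (AA w ξ (insert j I)) (y2 w s0 J R ξ I j) = JJ w s0 J R I * hh w ξ ξ ∧
    ∀ B : ℕ × κ → ℝ, (∀ p ∈ PP w ξ, B (p, j) = 0) →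
      FF Prod.fst (AA w ξ (insert j I)) (y2 w s0 J R ξ I j) B =
        FF Prod.fst (AA w R I) (yI w s0 J R I) B * hh w ξ ξ

open Classical in
/-- the second moment argument -/
def S_Abs : Prop :=
  ∀ (m M K : ℕ) (Ω : Finset ℕ) (W : ℕ → ℝ) (μ : Fin M × Fin K → ℕ → ℝ) (l α β γ : ℝ),
    (∀ n ∈ Ω, 0 ≤ W n) → (∀ x, ∀ n ∈ Ω, 0 ≤ μ x n ∧ μ x n ≤ l) → 0 < K → 0 < l → 0 < β → 0 ≤ γ →
    ∑ n ∈ Ω, W n ≤ α → (∀ x, β ≤ ∑ n ∈ Ω, μ x n * W n) →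
    (∀ x y, x ≠ y → ∑ n ∈ Ω, μ x n * (if μ y n ≠ 0 then 1 else 0) * W n ≤ γ) →
    m * α * l * (β + K * γ) < M * K * β ^ 2 →
    ∃ n ∈ Ω, ∃ I : Finset (Fin M), m < I.card ∧ ∀ i ∈ I, ∃ s, μ (i, s) n ≠ 0

/-- the mean value of the weights against a measure that is well distributed on average -/
def S_Mst : Prop :=
  ∀ (ι : Type) [Fintype ι] [DecidableEq ι] (a b : ι → ℕ) (K v k w R Y D1 Z e Lvl : ℕ)
    (Ω : Finset ℕ) (μ : ℕ → ℝ) (Γ I : Finset ι) (X ε Θ : ℝ) (E : Finset ℕ → ℝ)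
    (s : SieveW (GP a w) D1 (k + 3) ε) (y : Finset (ℕ × ι) → ℝ),
    Nrm a b K v → Fintype.card ι = k → 3 ≤ k → 2 * (k + 3) ≤ K → v ≤ w → 3 ≤ w → w ≤ Y → R ≤ Y →
    Γ.card ≤ 1 → Disjoint Γ I → 0 ≤ X → 0 ≤ ε → Th w Y ≤ Θ →
    (∀ n ∈ Ω, μ n ≠ 0 → ∀ p ∈ GP a Y, ∀ l ∈ Γ, ¬ p ∣ a l * n + b l) →
    (∀ T ∈ lev (GP a Y) Lvl, ∀ c : ℕ, (∀ p ∈ T, ∀ l ∈ Γ, ¬ p ∣ a l * c + b l) →
      |∑ n ∈ Ω, μ n * (if n ≡ c [MOD ∏ p ∈ T, p] then 1 else 0) -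
        X * ∏ p ∈ T, (p : ℝ) / (p - Γ.card) / p| ≤ E T) → (∀ T, 0 ≤ E T) →
    (∀ U ⊆ AA w R I, |y U| ≤ Θ ^ 2) → (∀ U ⊆ AA w R I, y U ≠ 0 → dd Prod.fst U ≤ Z) →
    Z ^ 2 ≤ w ^ e → 3 * e ≤ w → D1 * Z ^ 2 ≤ Lvl →
    |∑ n ∈ Ω, μ n * (s.U (fun p => ev a b univ p n) * FF Prod.fst (AA w R I) y (BB a b n) ^ 2) -
      X * (∏ p ∈ GP a w, (p : ℝ) / (p - Γ.card)) * Vk a w * diag Prod.fst (AA w R I) y| ≤
      Θ ^ (5 * k + 8) * (X * (∏ p ∈ GP a w, (p : ℝ) / (p - Γ.card)) * Vk a w *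
          (3 * ε + 10 * e / w + 20 * (k : ℝ) ^ 2 / w) +
        ∑ T ∈ lev (GP a Y) Lvl, ((k * 2 ^ (2 * k + 1) : ℕ) : ℝ) ^ T.card * E T)

end Pool.Agent.P.MP_746f10_nt.Cel
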