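import Mathlib
import Pool.Agent.P.MP_746f10_nt.Cel.Defs

/-! Normalisation of an admissible system of linear forms. -/

namespace Pool.Agent.P.MP_746f10_nt.Cel

open Finset

namespace Norm

lemma exists_shift {ι : Type} (a b : ι → ℕ) {Δ : ℕ} (hΔ : 0 < Δ) (h : Adm a b) :
    ∃ n0 < Δ, ∀ l, (a l * n0 + b l).Coprime Δ := by
  choose! m hm using h
  obtain ⟨t, ht⟩ := Nat.chineseRemainderOfFinset m id Δ.primeFactors
    (fun p hp => (Nat.prime_of_mem_primeFactors hp).ne_zero) fun p hp q hq hne =>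
      (Nat.coprime_primes (Nat.prime_of_mem_primeFactors hp) (Nat.prime_of_mem_primeFactors hq)).2 hne
  refine ⟨t % Δ, Nat.mod_lt _ hΔ, fun l => Nat.coprime_of_dvd fun p hp h1 h2 => hm p hp l ?_⟩
  have h3 : t % Δ ≡ m p [MOD p] := ((Nat.mod_modEq t Δ).of_dvd h2).trans
    (ht p (Nat.mem_primeFactors.2 ⟨hp, h2, hΔ.ne'⟩))
  exact (Nat.modEq_zero_iff_dvd.1 (((h3.mul_left (a l)).add_right (b l)).symm.trans
    (Nat.modEq_zero_iff_dvd.2 h1)))

lemma exists_Nrm {ι : Type} [Fintype ι] [DecidableEq ι] (a b : ι → ℕ) (K : ℕ) (ha : ∀ i, 0 < a i)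
    (h2 : Adm a b) (h3 : Function.Injective fun x => (a x, b x)) :
    ∃ Δ n0 : ℕ, 0 < Δ ∧
      Nrm (fun l => a l * Δ) (fun l => a l * n0 + b l) K ((∏ i, a i) * Δ) := by
  have hA : ∀ i, a i ≤ ∏ i, a i := fun i =>
    Nat.le_of_dvd (prod_pos fun i _ => ha i) (dvd_prod_of_mem a (mem_univ i))
  have hcop : ∀ i, (a i).Coprime (b i) := fun i => Nat.coprime_of_dvd fun p hp d1 d2 => by
    obtain ⟨m, hm⟩ := h2 p hp
    exact hm i (dvd_add (d1.mul_right m) d2)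
  set d : ι × ι → ℕ := fun x => ((a x.2 : ℤ) * b x.1 - a x.1 * b x.2).natAbs with hd
  have hd0 : ∀ x ∈ (univ : Finset ι).offDiag, 0 < d x := fun x hx => by
    refine Int.natAbs_pos.2 fun h => (mem_offDiag.1 hx).2.2 (h3 ?_)
    have e : a x.2 * b x.1 = a x.1 * b x.2 := by exact_mod_cast sub_eq_zero.1 h
    have e1 : a x.1 = a x.2 := Nat.dvd_antisymm
      ((hcop x.1).dvd_of_dvd_mul_right (e ▸ dvd_mul_right _ _))
      ((hcop x.2).dvd_of_dvd_mul_right (e ▸ dvd_mul_right _ _))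
    rw [e1] at e
    exact Prod.ext e1 (Nat.eq_of_mul_eq_mul_left (ha _) e)
  obtain ⟨F, hF⟩ : ∃ F, F = K + ∑ i, b i + 2 := ⟨_, rfl⟩
  obtain ⟨Q, hQ⟩ : ∃ Q, Q = (∏ i, a i) * ∏ x ∈ (univ : Finset ι).offDiag, d x := ⟨_, rfl⟩
  have hQ0 : 0 < Q := hQ ▸ Nat.mul_pos (prod_pos fun i _ => ha i) (prod_pos hd0)
  obtain ⟨D, hD⟩ : ∃ D, D = F.factorial * Q := ⟨_, rfl⟩
  have hD0 : 0 < D := hD ▸ Nat.mul_pos (Nat.factorial_pos F) hQ0
  have hFD : F ≤ D := hD ▸ (Nat.self_le_factorial F).trans (Nat.le_mul_of_pos_right _ hQ0)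
  have hQD : Q ∣ D := hD ▸ dvd_mul_left _ _
  have haD : ∀ l, a l ∣ D := fun l =>
    (show a l ∣ Q from hQ ▸ (dvd_prod_of_mem a (mem_univ l)).mul_right _).trans hQD
  obtain ⟨n0, hn0, hco⟩ := exists_shift a b hD0 h2
  refine ⟨D * D, n0, Nat.mul_pos hD0 hD0, fun l => ?_, fun l => Nat.mul_le_mul_right _ (hA l),
    fun l => ?_, fun p l l' hp h => ?_, fun p l hp h => ?_, fun p n l l' hp h4 h5 => ?_⟩
  · have b1 : b l ≤ ∑ i, b i := single_le_sum (f := b) (fun _ _ => Nat.zero_le _) (mem_univ l)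
    have b2 : b l < D := by omega
    have b3 : 2 ≤ D := by omega
    have b4 : a l * n0 ≤ a l * D := Nat.mul_le_mul_left _ hn0.le
    have b5 : D ≤ a l * D := Nat.le_mul_of_pos_left _ (ha l)
    have b6 : a l * D * 2 ≤ a l * D * D := Nat.mul_le_mul_left _ b3
    show a l * n0 + b l < a l * (D * D)
    rw [← mul_assoc]
    omega
  · exact Nat.Coprime.mul_left ((hco l).symm.coprime_dvd_left (haD l))
      (Nat.Coprime.mul_left (hco l).symm (hco l).symm)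
  · have h1 : p ∣ D := (hp.dvd_mul.1 h).elim (fun h => h.trans (haD l))
      fun h => (hp.dvd_mul.1 h).elim id id
    exact (h1.mul_right _).mul_left _
  · have h1 : p ∣ D := hD ▸ (hp.dvd_factorial.2 (by omega)).mul_right _
    exact (h1.mul_right _).mul_left _
  · by_contra hne
    have h6 : p ∣ d (l, l') := by
      refine Int.natCast_dvd.1 ?_
      have b1 := (Int.natCast_dvd_natCast.2 h4).mul_left (a l' : ℤ)
      have b2 := (Int.natCast_dvd_natCast.2 h5).mul_left (a l : ℤ)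
      have e : (a l' : ℤ) * b l - a l * b l' = a l' * (a l * (D * D) * n + (a l * n0 + b l) : ℕ) -
          a l * (a l' * (D * D) * n + (a l' * n0 + b l') : ℕ) := by push_cast; ring
      rw [e]; exact dvd_sub b1 b2
    have h7 : p ∣ D := (show p ∣ Q from hQ ▸ (h6.trans (dvd_prod_of_mem d
      (mem_offDiag.2 ⟨mem_univ _, mem_univ _, hne⟩))).mul_left _).trans hQD
    exact hp.one_lt.ne' (Nat.eq_one_of_dvd_coprimes (hco l)
      ((Nat.dvd_add_right (((h7.mul_right _).mul_left _).mul_right n)).1 h4) h7)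

end Norm

theorem pNorm (h : S_CellN) : S_Cell := by
  intro m
  obtain ⟨K, K0, hK, h⟩ := h m
  refine ⟨K, hK, fun a b ha hadm hinj N => ?_⟩
  obtain ⟨Δ, n0, hΔ, hN⟩ := Norm.exists_Nrm a b K0 ha hadm hinj
  obtain ⟨n, hn, I, hI, hp⟩ := h _ _ _ hN N
  refine ⟨Δ * n + n0, hn.trans ((Nat.le_mul_of_pos_left _ hΔ).trans (Nat.le_add_right _ _)),
    I, hI, fun i hi => ?_⟩
  obtain ⟨s, hs⟩ := hp i hi
  refine ⟨s, ?_⟩
  have e : a (i, s) * (Δ * n + n0) + b (i, s) =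
      a (i, s) * Δ * n + (a (i, s) * n0 + b (i, s)) := by ring
  rw [e]
  exact hs

end Pool.Agent.P.MP_746f10_nt.Cel
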