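import Pool.Agent.P.MP_746f10_nt.Cel.Defs
import Pool.Agent.P.MP_0ad054_nt.An.Defs

/-! A weighted form of the Bombieri-Vinogradov theorem along one linear form. -/

namespace Pool.Agent.P.MP_746f10_nt.Cel

open Finset
open scoped ArithmeticFunction.vonMangoldt

namespace Err

lemma mem_lev {P T : Finset ℕ} {D : ℕ} : T ∈ lev P D ↔ T ⊆ P ∧ ∏ p ∈ T, p ≤ D := by
  simp [lev]

lemma prod_pos' {T : Finset ℕ} (h : ∀ p ∈ T, p.Prime) : 0 < ∏ p ∈ T, p :=
  prod_pos fun p hp => (h p hp).pos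

lemma prod_inv_eq (T : Finset ℕ) : ∏ p ∈ T, 1 / (p : ℝ) = 1 / ((∏ p ∈ T, p : ℕ) : ℝ) := by
  push_cast
  rw [prod_div_distrib, prod_const_one]

end Err

theorem pErr0 : S_Err0 := by
  intro P D z hP hD
  have h1 : ∑ T ∈ lev P D, (z : ℝ) ^ T.card * ∏ p ∈ T, 1 / (p : ℝ) ≤ (CM * Real.log D) ^ z := by
    have hs : lev P D ⊆ (PP 0 D).powerset := by
      intro T hT
      obtain ⟨h1, h2⟩ := Err.mem_lev.1 hT
      refine mem_powerset.2 fun p hp => mem_PP.2 ⟨(hP p (h1 hp)).pos, ?_, hP p (h1 hp)⟩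
      exact (Nat.le_of_dvd (Err.prod_pos' fun p hp => hP p (h1 hp)) (dvd_prod_of_mem _ hp)).trans h2
    have e : Th 0 D = (VV D)⁻¹ := by
      unfold Th VV
      rw [prod_inv_distrib]
    calc ∑ T ∈ lev P D, (z : ℝ) ^ T.card * ∏ p ∈ T, 1 / (p : ℝ)
        ≤ ∑ T ∈ (PP 0 D).powerset, (z : ℝ) ^ T.card * ∏ p ∈ T, 1 / (p : ℝ) :=
          sum_le_sum_of_subset_of_nonneg hs fun T _ _ => by positivity
      _ = ∏ p ∈ PP 0 D, (1 + (z : ℝ) / p) := by
          rw [prod_one_add]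
          refine sum_congr rfl fun T _ => ?_
          rw [← prod_const, ← prod_mul_distrib]
          exact prod_congr rfl fun p _ => by ring
      _ ≤ Th 0 D ^ z := prod_one_add_le_Th 0 D z fun p _ => ⟨by positivity, le_rfl⟩
      _ ≤ (CM * Real.log D) ^ z := by
          rw [e]
          exact pow_le_pow_left₀ (inv_nonneg.2 (VV_pos D).le) (inv_VV_le D hD) z
  refine ⟨h1, le_trans ?_ (mul_le_mul_of_nonneg_left h1 (Nat.cast_nonneg D))⟩
  rw [mul_sum]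
  refine sum_le_sum fun T hT => ?_
  obtain ⟨h1, h2⟩ := Err.mem_lev.1 hT
  have h3 : (0 : ℝ) < ((∏ p ∈ T, p : ℕ) : ℝ) := by
    exact_mod_cast Err.prod_pos' fun p hp => hP p (h1 hp)
  have h4 : ((∏ p ∈ T, p : ℕ) : ℝ) ≤ D := by exact_mod_cast h2
  rw [Err.prod_inv_eq, mul_left_comm, mul_one_div]
  exact le_mul_of_one_le_right (by positivity) ((one_le_div h3).2 h4)

namespace Err

/-- sums over a residue class -/
noncomputable def cs (f : ℕ → ℝ) (X k : ℕ) (r : ℤ) : ℝ :=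
  ∑ n ∈ (Icc 1 X).filter (fun n : ℕ => (k : ℤ) ∣ n - r), f n

lemma shift (f : ℕ → ℝ) {a b N X q : ℕ} (c : ℕ) (ha : 0 < a) (hX : X + 1 = a * N + b) :
    ∑ n ∈ Ico N (2 * N), f (a * n + b) * (if n ≡ c [MOD q] then 1 else 0) =
      cs f (X + a * N) (a * q) (a * c + b : ℕ) - cs f X (a * q) (a * c + b : ℕ) := by
  have e : ∀ Y, Icc 1 Y = Ioc 0 Y := fun Y => by ext n; simp only [mem_Icc, mem_Ioc]; omega
  unfold cs
  rw [sum_filter, sum_filter, e, e, ← sum_Ioc_consecutive _ (Nat.zero_le X) (Nat.le_add_right X _),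
    add_sub_cancel_left, ← sum_filter]
  simp only [mul_ite, mul_one, mul_zero]
  rw [← sum_filter]
  have ha' : (a : ℤ) ≠ 0 := by exact_mod_cast ha.ne'
  refine sum_bij (fun n _ => a * n + b) (fun n hn => ?_) (fun n _ n' _ h => ?_) (fun m hm => ?_)
    fun _ _ => rfl
  · obtain ⟨h1, h2⟩ := mem_filter.1 hn
    obtain ⟨h3, h4⟩ := mem_Ico.1 h1
    have h5 : a * N ≤ a * n := Nat.mul_le_mul_left a h3
    have h6 : a * (n + 1) ≤ a * (2 * N) := Nat.mul_le_mul_left a h4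
    refine mem_filter.2 ⟨mem_Ioc.2 ⟨by omega, by nlinarith⟩, ?_⟩
    have := mul_dvd_mul_left (a : ℤ) ((Nat.modEq_iff_dvd).1 h2.symm)
    push_cast
    rwa [show (a : ℤ) * n + b - (a * c + b) = a * (n - c) by ring]
  · exact Nat.eq_of_mul_eq_mul_left ha (by omega)
  · obtain ⟨h1, t, ht⟩ := mem_filter.1 hm
    obtain ⟨h3, h4⟩ := mem_Ioc.1 h1
    push_cast at ht
    have hX' : (X : ℤ) + 1 = a * N + b := by exact_mod_cast hX
    have h3' : (X : ℤ) < m := by exact_mod_cast h3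
    have h4' : (m : ℤ) ≤ X + a * N := by exact_mod_cast h4
    have ha0 : (0 : ℤ) < a := by exact_mod_cast ha
    have h5 : (N : ℤ) ≤ c + q * t := le_of_mul_le_mul_left (by linarith) ha0
    have h6 : (c : ℤ) + q * t < 2 * N := lt_of_mul_lt_mul_left (by linarith) ha0.le
    obtain ⟨n, hn⟩ := Int.eq_ofNat_of_zero_le (le_trans (Int.natCast_nonneg N) h5)
    refine ⟨n, mem_filter.2 ⟨mem_Ico.2 ⟨by omega, by omega⟩, ?_⟩, ?_⟩
    · exact ((Nat.modEq_iff_dvd).2 ⟨t, by linarith⟩ : c ≡ n [MOD q]).symm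
    · have : (a : ℤ) * n + b = m := by rw [← hn]; linarith
      exact_mod_cast this

lemma th_nonneg (n : ℕ) : 0 ≤ th n := by
  unfold th
  split_ifs
  exacts [Real.log_natCast_nonneg n, le_rfl]

lemma th_le (n : ℕ) : th n ≤ Λ n := by
  unfold th
  split_ifs with h
  exacts [(ArithmeticFunction.vonMangoldt_apply_prime h).ge, ArithmeticFunction.vonMangoldt_nonneg]

lemma th_le_log {n X : ℕ} (h : n ≤ X) : th n ≤ Real.log X := by
  unfold th
  split_ifs with hp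
  · exact Real.log_le_log (by exact_mod_cast hp.pos) (by exact_mod_cast h)
  · exact Real.log_natCast_nonneg X

lemma cs_diff (X k : ℕ) (r : ℤ) (hX : 1 ≤ X) :
    cs (fun n => Λ n - th n) X k r ≤ 2 * √(X : ℝ) * Real.log X := by
  have h := Chebyshev.psi_sub_theta_le (x := X) (by exact_mod_cast hX)
  refine le_trans ?_ h
  have e : Icc 1 X = Ioc 0 X := by ext n; simp only [mem_Icc, mem_Ioc]; omega
  unfold cs Chebyshev.psi Chebyshev.theta
  rw [Nat.floor_natCast, sum_filter (fun p : ℕ => p.Prime), ← sum_sub_distrib, e]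
  exact sum_le_sum_of_subset_of_nonneg (filter_subset _ _) fun n _ _ => sub_nonneg.2 (th_le n)

lemma main_eq {a : ℕ} {T : Finset ℕ} (ha : 0 < a) (hT : ∀ p ∈ T, p.Prime ∧ ¬ p ∣ a) :
    (a : ℝ) / (a * ∏ p ∈ T, p).totient =
      (∏ p ∈ a.primeFactors, (p : ℝ) / (p - 1)) * ∏ p ∈ T, (p : ℝ) / (p - 1) / p := by
  have hq := prod_pos' fun p hp => (hT p hp).1
  have hd : Disjoint a.primeFactors T :=
    disjoint_left.2 fun p h1 h2 => (hT p h2).2 (Nat.dvd_of_mem_primeFactors h1)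
  have h := Nat.totient_mul_prod_primeFactors (a * ∏ p ∈ T, p)
  rw [Nat.primeFactors_mul ha.ne' hq.ne', Nat.primeFactors_prod fun p hp => (hT p hp).1,
    prod_union hd, prod_union hd] at h
  have c1 : ∀ s : Finset ℕ, (∀ p ∈ s, p.Prime) →
      ((∏ p ∈ s, (p - 1) : ℕ) : ℝ) = ∏ p ∈ s, ((p : ℝ) - 1) := fun s hs => by
    rw [Nat.cast_prod]
    exact prod_congr rfl fun p hp => by rw [Nat.cast_pred (hs p hp).pos]
  have c2 : ∀ s : Finset ℕ, (∀ p ∈ s, p.Prime) → ∏ p ∈ s, ((p : ℝ) - 1) ≠ 0 := fun s hs =>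
    prod_ne_zero_iff.2 fun p hp => by
      have : (2 : ℝ) ≤ p := by exact_mod_cast (hs p hp).two_le
      linarith
  have c3 : ∀ s : Finset ℕ, (∀ p ∈ s, p.Prime) → ∏ p ∈ s, (p : ℝ) ≠ 0 := fun s hs =>
    prod_ne_zero_iff.2 fun p hp => by exact_mod_cast (hs p hp).ne_zero
  have pa : ∀ p ∈ a.primeFactors, p.Prime := fun p hp => Nat.prime_of_mem_primeFactors hp
  have pT : ∀ p ∈ T, p.Prime := fun p hp => (hT p hp).1
  have h' := congrArg (Nat.cast : ℕ → ℝ) h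
  rw [Nat.cast_mul, Nat.cast_mul, Nat.cast_mul, Nat.cast_mul, Nat.cast_mul, c1 _ pa, c1 _ pT,
    Nat.cast_prod, Nat.cast_prod] at h'
  have hφ : ((a * ∏ p ∈ T, p).totient : ℝ) ≠ 0 := by
    exact_mod_cast (Nat.totient_pos.2 (Nat.mul_pos ha hq)).ne'
  have b1 := c2 _ pa
  have b2 := c2 _ pT
  have b3 := c3 _ pT
  rw [prod_div_distrib, prod_div_distrib, prod_div_distrib]
  field_simp
  refine mul_left_cancel₀ b3 ?_
  linear_combination -h'

/-- the error for one class against the errors for the von Mangoldt function -/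
lemma err_le {a b N X : ℕ} {T : Finset ℕ} (c : ℕ) (ha : 0 < a) (hX : X + 1 = a * N + b)
    (hX1 : 1 ≤ X) (hT : ∀ p ∈ T, p.Prime ∧ ¬ p ∣ a) :
    |∑ n ∈ Ico N (2 * N), th (a * n + b) * (if n ≡ c [MOD ∏ p ∈ T, p] then 1 else 0) -
      (N : ℝ) * (∏ p ∈ a.primeFactors, (p : ℝ) / (p - 1)) * ∏ p ∈ T, (p : ℝ) / (p - 1) / p| ≤
    |cs (fun n => Λ n) (X + a * N) (a * ∏ p ∈ T, p) (a * c + b : ℕ) -
        ((X + a * N : ℕ) : ℝ) / (a * ∏ p ∈ T, p).totient| +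
      |cs (fun n => Λ n) X (a * ∏ p ∈ T, p) (a * c + b : ℕ) - (X : ℝ) / (a * ∏ p ∈ T, p).totient| +
      2 * √((X + a * N : ℕ) : ℝ) * Real.log (X + a * N : ℕ) := by
  have s1 := shift (fun n => Λ n) (q := ∏ p ∈ T, p) c ha hX
  have s2 := shift (fun n => Λ n - th n) (q := ∏ p ∈ T, p) c ha hX
  have s3 := cs_diff (X + a * N) (a * ∏ p ∈ T, p) (a * c + b : ℕ) (by omega)
  have s4 : 0 ≤ cs (fun n => Λ n - th n) X (a * ∏ p ∈ T, p) (a * c + b : ℕ) :=
    sum_nonneg fun n _ => sub_nonneg.2 (th_le n)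
  have s5 : 0 ≤ ∑ n ∈ Ico N (2 * N), (Λ (a * n + b) - th (a * n + b)) *
      (if n ≡ c [MOD ∏ p ∈ T, p] then 1 else 0) :=
    sum_nonneg fun n _ => mul_nonneg (sub_nonneg.2 (th_le _)) (by positivity)
  have s6 : ∑ n ∈ Ico N (2 * N), (Λ (a * n + b) - th (a * n + b)) *
      (if n ≡ c [MOD ∏ p ∈ T, p] then 1 else 0) =
      ∑ n ∈ Ico N (2 * N), Λ (a * n + b) * (if n ≡ c [MOD ∏ p ∈ T, p] then 1 else 0) -
      ∑ n ∈ Ico N (2 * N), th (a * n + b) * (if n ≡ c [MOD ∏ p ∈ T, p] then 1 else 0) := by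
    rw [← sum_sub_distrib]
    exact sum_congr rfl fun n _ => sub_mul _ _ _
  have s7 : (N : ℝ) * (∏ p ∈ a.primeFactors, (p : ℝ) / (p - 1)) * ∏ p ∈ T, (p : ℝ) / (p - 1) / p =
      ((X + a * N : ℕ) : ℝ) / (a * ∏ p ∈ T, p).totient - (X : ℝ) / (a * ∏ p ∈ T, p).totient := by
    rw [mul_assoc, ← main_eq ha hT]
    push_cast
    ring
  rw [s7]
  have a1 := le_abs_self (cs (fun n => Λ n) (X + a * N) (a * ∏ p ∈ T, p) (a * c + b : ℕ) -
        ((X + a * N : ℕ) : ℝ) / (a * ∏ p ∈ T, p).totient)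
  have a2 := neg_abs_le (cs (fun n => Λ n) (X + a * N) (a * ∏ p ∈ T, p) (a * c + b : ℕ) -
        ((X + a * N : ℕ) : ℝ) / (a * ∏ p ∈ T, p).totient)
  have a3 := le_abs_self
    (cs (fun n => Λ n) X (a * ∏ p ∈ T, p) (a * c + b : ℕ) - (X : ℝ) / (a * ∏ p ∈ T, p).totient)
  have a4 := neg_abs_le
    (cs (fun n => Λ n) X (a * ∏ p ∈ T, p) (a * c + b : ℕ) - (X : ℝ) / (a * ∏ p ∈ T, p).totient)
  rw [abs_le]
  constructor <;> linarith

/-- the trivial bound -/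
lemma triv_le {a b N Y : ℕ} {T : Finset ℕ} (c : ℕ) (l α : ℝ) (hY : 2 * a * N + b ≤ Y)
    (hT : ∀ p ∈ T, p.Prime) (hq : ∏ p ∈ T, p ≤ N) (hl : Real.log Y ≤ l) (hα : 0 ≤ α) :
    |∑ n ∈ Ico N (2 * N), th (a * n + b) * (if n ≡ c [MOD ∏ p ∈ T, p] then 1 else 0) -
      (N : ℝ) * α * ∏ p ∈ T, (p : ℝ) / (p - 1) / p| ≤
      (2 * l + α) * N * (2 ^ T.card * ∏ p ∈ T, 1 / (p : ℝ)) := by
  have hq0 := prod_pos' hT
  have hq1 : (0 : ℝ) < ((∏ p ∈ T, p : ℕ) : ℝ) := by exact_mod_cast hq0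
  have hl0 : 0 ≤ l := (Real.log_natCast_nonneg Y).trans hl
  have c1 := (abs_le.1 (count_class hq0 c (A := N) (B := 2 * N) (by omega))).2
  have c2 : (1 : ℝ) ≤ N / ((∏ p ∈ T, p : ℕ) : ℝ) := (one_le_div hq1).2 (by exact_mod_cast hq)
  have c3 : (((2 * N : ℕ) : ℝ) - N) = N := by push_cast; ring
  rw [c3] at c1
  have hP : 0 ≤ ∏ p ∈ T, 1 / (p : ℝ) := by positivity
  have s1 : 0 ≤ ∑ n ∈ Ico N (2 * N), th (a * n + b) *
      (if n ≡ c [MOD ∏ p ∈ T, p] then 1 else 0) :=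
    sum_nonneg fun n _ => mul_nonneg (th_nonneg _) (by positivity)
  have s2 : ∑ n ∈ Ico N (2 * N), th (a * n + b) * (if n ≡ c [MOD ∏ p ∈ T, p] then 1 else 0) ≤
      2 * l * N * (2 ^ T.card * ∏ p ∈ T, 1 / (p : ℝ)) := by
    calc _ ≤ ∑ n ∈ Ico N (2 * N), l * (if n ≡ c [MOD ∏ p ∈ T, p] then 1 else 0) := by
          refine sum_le_sum fun n hn => mul_le_mul_of_nonneg_right
            ((th_le_log ?_).trans hl) (by positivity)
          have := Nat.mul_le_mul_left a (mem_Ico.1 hn).2.le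
          nlinarith
      _ ≤ l * (2 * (N * ∏ p ∈ T, 1 / (p : ℝ))) := by
          rw [← mul_sum, prod_inv_eq, mul_one_div]
          exact mul_le_mul_of_nonneg_left (by linarith) hl0
      _ = 2 * l * N * (1 * ∏ p ∈ T, 1 / (p : ℝ)) := by ring
      _ ≤ _ := by gcongr; exact one_le_pow₀ (by norm_num)
  have hp2 : ∀ p ∈ T, (2 : ℝ) ≤ p := fun p hp => by exact_mod_cast (hT p hp).two_le
  have s3 : 0 ≤ ∏ p ∈ T, (p : ℝ) / (p - 1) / p :=
    prod_nonneg fun p hp => by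
      have := hp2 p hp
      have : (0 : ℝ) ≤ p - 1 := by linarith
      positivity
  have s4 : ∏ p ∈ T, (p : ℝ) / (p - 1) / p ≤ 2 ^ T.card * ∏ p ∈ T, 1 / (p : ℝ) := by
    rw [← prod_const, ← prod_mul_distrib]
    refine prod_le_prod (fun p hp => ?_) fun p hp => ?_
    · have := hp2 p hp
      have : (0 : ℝ) ≤ p - 1 := by linarith
      positivity
    · have := hp2 p hp
      rw [mul_one_div]
      gcongr
      rw [div_le_iff₀ (by linarith)]
      linarith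
  have s5 : 0 ≤ (N : ℝ) * α * ∏ p ∈ T, (p : ℝ) / (p - 1) / p := by positivity
  have s6 : (N : ℝ) * α * ∏ p ∈ T, (p : ℝ) / (p - 1) / p ≤
      N * α * (2 ^ T.card * ∏ p ∈ T, 1 / (p : ℝ)) := by gcongr
  have s7 : 0 ≤ 2 * l * N * (2 ^ T.card * ∏ p ∈ T, 1 / (p : ℝ)) := by positivity
  rw [abs_le]
  constructor <;> nlinarith

lemma sum_lev_le {a D : ℕ} {P : Finset ℕ} (ha : 0 < a) (hP : ∀ p ∈ P, p.Prime) (g : ℕ → ℝ)
    (hg : ∀ k, 0 ≤ g k) : ∑ T ∈ lev P D, g (a * ∏ p ∈ T, p) ≤ ∑ k ∈ Icc 1 (a * D), g k := by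
  have pr : ∀ T ∈ lev P D, ∀ p ∈ T, p.Prime := fun T hT p hp => hP p ((mem_lev.1 hT).1 hp)
  rw [← sum_image (g := fun T : Finset ℕ => a * ∏ p ∈ T, p)]
  · refine sum_le_sum_of_subset_of_nonneg (fun k hk => ?_) fun k _ _ => hg k
    obtain ⟨T, hT, rfl⟩ := mem_image.1 hk
    exact mem_Icc.2 ⟨Nat.mul_pos ha (prod_pos' (pr T hT)), Nat.mul_le_mul_left a (mem_lev.1 hT).2⟩
  · intro T hT T' hT' h
    rw [← Nat.primeFactors_prod (pr T hT), ← Nat.primeFactors_prod (pr T' hT'),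
      Nat.eq_of_mul_eq_mul_left ha h]

lemma bv_use (hBV : Pool.Agent.P.MP_0ad054_nt.An.S_BV) (L B : ℕ) : ∃ C : ℝ, 0 < C ∧
    ∀ (w X K : ℕ) (r : ℕ → ℤ) (Y : ℝ), 3 ≤ w → w ^ (2 * L + 3) ≤ X → (X : ℝ) ≤ Y →
      K ≤ w ^ (L + 1) → (∀ k ∈ Icc 1 K, IsCoprime (r k) k) →
      ∑ k ∈ Icc 1 K, |cs (fun n => Λ n) X k (r k) - (X : ℝ) / k.totient| ≤
        C * Y / Real.log w ^ B := by
  obtain ⟨C, hC, h⟩ := hBV (((L : ℝ) + 1) / (2 * L + 3)) B (by
    rw [div_lt_div_iff₀ (by positivity) (by norm_num)]; linarith)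
  refine ⟨C, hC, fun w X K r Y hw hX hY hK hr => ?_⟩
  have h1 : w ≤ X := (Nat.le_self_pow (by omega) w).trans hX
  have hw0 : (1 : ℝ) < w := by exact_mod_cast (by omega : 1 < w)
  have hl : 0 < Real.log w := Real.log_pos hw0
  have hl2 : Real.log w ≤ Real.log X := Real.log_le_log (by linarith) (by exact_mod_cast h1)
  refine (h X K r (by omega) ?_ hr).trans ?_
  · calc (K : ℝ) ≤ (w : ℝ) ^ (L + 1) := by exact_mod_cast hK
      _ = ((w : ℝ) ^ (2 * L + 3)) ^ (((L : ℝ) + 1) / (2 * L + 3)) := by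
          rw [← Real.rpow_natCast, ← Real.rpow_natCast, ← Real.rpow_mul (by linarith)]
          congr 1
          push_cast
          field_simp
      _ ≤ _ := Real.rpow_le_rpow (by positivity) (by exact_mod_cast hX) (by positivity)
  · have : (0 : ℝ) ≤ Y := (Nat.cast_nonneg X).trans hY
    gcongr

lemma rest_le {a L u w X B : ℕ} (hu : 2 * L + 4 ≤ u) (hw : 3 ≤ w) (hX : X ≤ w ^ (u + 1)) :
    ((a * w ^ L : ℕ) : ℝ) * (2 * √(X : ℝ) * Real.log X) ≤
      (2 * a * (u + 1) * (B + 1).factorial) * (w : ℝ) ^ u / Real.log w ^ B := by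
  have hw0 : (1 : ℝ) < w := by exact_mod_cast (by omega : 1 < w)
  have hl : 0 < Real.log w := Real.log_pos hw0
  have h1 : Real.log X ≤ (u + 1) * Real.log w := by
    rcases Nat.eq_zero_or_pos X with rfl | h0
    · simp only [Nat.cast_zero, Real.log_zero]; positivity
    · calc Real.log X ≤ Real.log ((w : ℝ) ^ (u + 1)) :=
            Real.log_le_log (by exact_mod_cast h0) (by exact_mod_cast hX)
        _ = _ := by rw [Real.log_pow]; push_cast; ring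
  have h2 : (w : ℝ) ^ L * √(X : ℝ) * w ≤ (w : ℝ) ^ u := by
    refine le_of_pow_le_pow_left₀ (n := 2) (by norm_num) (by positivity) ?_
    have hX' : (X : ℝ) ≤ (w : ℝ) ^ (u + 1) := by exact_mod_cast hX
    calc ((w : ℝ) ^ L * √(X : ℝ) * w) ^ 2 = (w : ℝ) ^ (2 * L + 2) * X := by
          rw [mul_pow, mul_pow, Real.sq_sqrt (Nat.cast_nonneg X)]; ring
      _ ≤ (w : ℝ) ^ (2 * L + 2) * (w : ℝ) ^ (u + 1) := by gcongr
      _ = (w : ℝ) ^ (2 * L + 2 + (u + 1)) := (pow_add _ _ _).symm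
      _ ≤ (w : ℝ) ^ (u * 2) := pow_le_pow_right₀ hw0.le (by omega)
      _ = _ := pow_mul _ _ _
  have h3 : Real.log w ^ (B + 1) ≤ (B + 1).factorial * w := by
    have := Real.pow_div_factorial_le_exp (Real.log w) hl.le (B + 1)
    rw [Real.exp_log (by linarith), div_le_iff₀ (by positivity)] at this
    linarith
  rw [le_div_iff₀ (by positivity)]
  push_cast
  calc (a : ℝ) * (w : ℝ) ^ L * (2 * √(X : ℝ) * Real.log X) * Real.log w ^ B
      ≤ (a : ℝ) * (w : ℝ) ^ L * (2 * √(X : ℝ) * ((u + 1) * Real.log w)) * Real.log w ^ B := by gcongr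
    _ = 2 * a * (u + 1) * ((w : ℝ) ^ L * √(X : ℝ)) * Real.log w ^ (B + 1) := by ring
    _ ≤ 2 * a * (u + 1) * ((w : ℝ) ^ L * √(X : ℝ)) * ((B + 1).factorial * w) := by gcongr
    _ = 2 * a * (u + 1) * (B + 1).factorial * ((w : ℝ) ^ L * √(X : ℝ) * w) := by ring
    _ ≤ _ := by gcongr

lemma weights {s : Finset (Finset ℕ)} {E g : Finset ℕ → ℝ} {z : ℕ} {lam S1 S2 c : ℝ}
    (hlam : 0 < lam) (hc : 0 ≤ c) (hE : ∀ T, 0 ≤ E T) (h1 : ∑ T ∈ s, E T ≤ S1)
    (h2 : ∀ T ∈ s, E T ≤ c * (2 ^ T.card * g T))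
    (h3 : ∑ T ∈ s, ((2 * z ^ 2 : ℕ) : ℝ) ^ T.card * g T ≤ S2) :
    ∑ T ∈ s, (z : ℝ) ^ T.card * E T ≤ lam * S1 + c * S2 / lam := by
  calc ∑ T ∈ s, (z : ℝ) ^ T.card * E T
      ≤ ∑ T ∈ s, (lam * E T + c / lam * (((2 * z ^ 2 : ℕ) : ℝ) ^ T.card * g T)) := by
        refine sum_le_sum fun T hT => ?_
        have hx : (0 : ℝ) ≤ (z : ℝ) ^ T.card := by positivity
        have e : ((2 * z ^ 2 : ℕ) : ℝ) ^ T.card = 2 ^ T.card * ((z : ℝ) ^ T.card) ^ 2 := by
          push_cast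
          rw [mul_pow, pow_right_comm]
        rw [e]
        generalize (z : ℝ) ^ T.card = x at hx
        have a1 : x ≤ lam + x ^ 2 / lam := by
          rw [← sub_le_iff_le_add', le_div_iff₀ hlam]
          nlinarith [sq_nonneg (x - lam)]
        calc x * E T ≤ (lam + x ^ 2 / lam) * E T := mul_le_mul_of_nonneg_right a1 (hE T)
          _ = lam * E T + x ^ 2 / lam * E T := by ring
          _ ≤ lam * E T + x ^ 2 / lam * (c * (2 ^ T.card * g T)) := by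
              gcongr
              exact h2 T hT
          _ = _ := by ring
    _ = lam * ∑ T ∈ s, E T + c / lam * ∑ T ∈ s, ((2 * z ^ 2 : ℕ) : ℝ) ^ T.card * g T := by
        rw [sum_add_distrib, ← mul_sum, ← mul_sum]
    _ ≤ lam * S1 + c / lam * S2 := by gcongr
    _ = _ := by ring

end Err

theorem pErr (h0 : S_Err0) (hBV : Pool.Agent.P.MP_0ad054_nt.An.S_BV) : S_Err := by
  classical
  intro a b L u z A ha hab hu
  obtain ⟨B, hB⟩ : ∃ B, B = A + (2 * z ^ 2 + 1 + A) := ⟨_, rfl⟩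
  obtain ⟨C, hC, hbv⟩ := Err.bv_use hBV L B
  obtain ⟨α, hα⟩ : ∃ α : ℝ, α = ∏ p ∈ a.primeFactors, (p : ℝ) / (p - 1) := ⟨_, rfl⟩
  have hα0 : 0 ≤ α := by
    rw [hα]
    refine prod_nonneg fun p hp => ?_
    have : (2 : ℝ) ≤ p := by exact_mod_cast (Nat.prime_of_mem_primeFactors hp).two_le
    have : (0 : ℝ) ≤ p - 1 := by linarith
    positivity
  refine ⟨(2 * (C * (2 * a + b)) + 2 * a * (u + 1) * (B + 1).factorial) +
    (2 * (u + 1) + α) * (CM * (L + 1)) ^ (2 * z ^ 2), 2 * a + b + 3, fun w hw P hP => ?_⟩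
  have hw3 : 3 ≤ w := by omega
  have hw0 : (1 : ℝ) < w := by exact_mod_cast (by omega : 1 < w)
  have hl : 1 ≤ Real.log w := by
    rw [Real.le_log_iff_exp_le (by linarith)]
    have : (3 : ℝ) ≤ w := by exact_mod_cast hw3
    linarith [Real.exp_one_lt_d9]
  have hN1 : w ^ (2 * L + 3) + 1 ≤ w ^ u := by
    have h1 : w ^ (2 * L + 4) ≤ w ^ u := Nat.pow_le_pow_right (by omega) hu
    have h2 : 1 ≤ w ^ (2 * L + 3) := Nat.one_le_pow _ _ (by omega)
    rw [pow_succ] at h1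
    nlinarith
  have hDN : w ^ L ≤ w ^ u := Nat.pow_le_pow_right (by omega) (by omega)
  have hK : a * w ^ L ≤ w ^ (L + 1) := by
    rw [pow_succ']
    exact Nat.mul_le_mul_right _ (by omega)
  have hpow : w ^ (u + 1) = w * w ^ u := pow_succ' _ _
  have hcast : (w : ℝ) ^ u = ((w ^ u : ℕ) : ℝ) := by push_cast; rfl
  rw [hcast, ← hα]
  have hrest := fun X => Err.rest_le (a := a) (X := X) (B := B) hu hw3
  rw [hcast] at hrest
  generalize w ^ u = N at hN1 hDN hpow hrest ⊢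
  have haN : N ≤ a * N := Nat.le_mul_of_pos_left N ha
  have hw1 : 1 ≤ w ^ (2 * L + 3) := Nat.one_le_pow _ _ (by omega)
  obtain ⟨X, hX⟩ : ∃ X, X + 1 = a * N + b := ⟨a * N + b - 1, by omega⟩
  have hY : 2 * a * N + b ≤ (2 * a + b) * N := by nlinarith
  have hY2 : (2 * a + b) * N ≤ w ^ (u + 1) := by
    rw [hpow]
    exact Nat.mul_le_mul_right _ (by omega)
  have hX2 : X + a * N ≤ (2 * a + b) * N := by nlinarith
  obtain ⟨err, herr⟩ : ∃ err : Finset ℕ → ℕ → ℝ, ∀ T c, err T c =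
      |∑ n ∈ Ico N (2 * N), th (a * n + b) * (if n ≡ c [MOD ∏ p ∈ T, p] then 1 else 0) -
        (N : ℝ) * α * ∏ p ∈ T, (p : ℝ) / (p - 1) / p| := ⟨_, fun _ _ => rfl⟩
  have hmax : ∀ T : Finset ℕ, ∃ c0 : ℕ, ∀ c : ℕ, (∀ p ∈ T, ¬ p ∣ a * c + b) →
      (∀ p ∈ T, ¬ p ∣ a * c0 + b) ∧ err T c ≤ err T c0 := by
    intro T
    by_cases hne : {c : ℕ | ∀ p ∈ T, ¬ p ∣ a * c + b}.Nonempty
    · have hf : (err T '' {c : ℕ | ∀ p ∈ T, ¬ p ∣ a * c + b}).Finite := by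
        refine ((Ico N (2 * N)).powerset.finite_toSet.image fun s =>
          |∑ n ∈ s, th (a * n + b) - (N : ℝ) * α * ∏ p ∈ T, (p : ℝ) / (p - 1) / p|).subset ?_
        rintro _ ⟨c, -, rfl⟩
        refine ⟨(Ico N (2 * N)).filter fun n => n ≡ c [MOD ∏ p ∈ T, p],
          mem_coe.2 (mem_powerset.2 (filter_subset _ _)), ?_⟩
        simp only [herr, sum_filter, mul_ite, mul_one, mul_zero]
      obtain ⟨c0, h1⟩ := Set.Finite.exists_maximalFor' _ _ hf hne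
      exact ⟨c0, fun c hc => ⟨h1.1, h1.le hc⟩⟩
    · exact ⟨0, fun c hc => absurd ⟨c, hc⟩ hne⟩
  choose c0 hc0 using hmax
  have herr0 : ∀ T c, 0 ≤ err T c := fun T c => by rw [herr]; exact abs_nonneg _
  have pr : ∀ T ∈ lev P (w ^ L), ∀ p ∈ T, p.Prime ∧ ¬ p ∣ a :=
    fun T hT p hp => hP p ((Err.mem_lev.1 hT).1 hp)
  refine ⟨fun T => if ∀ p ∈ T, ¬ p ∣ a * c0 T + b then err T (c0 T) else 0, fun T _ c hc => ?_,
    fun T => ?_, ?_⟩
  · beta_reduce
    rw [← herr, if_pos (hc0 T c hc).1]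
    exact (hc0 T c hc).2
  · beta_reduce
    split_ifs
    exacts [herr0 _ _, le_rfl]
  obtain ⟨r, hr1, hr2⟩ : ∃ r : ℕ → ℤ, (∀ k, IsCoprime (r k) k) ∧ ∀ T ∈ lev P (w ^ L),
      (∀ p ∈ T, ¬ p ∣ a * c0 T + b) → r (a * ∏ p ∈ T, p) = (a * c0 T + b : ℕ) := by
    refine ⟨fun k => if (a * c0 (k / a).primeFactors + b).Coprime k then
      (a * c0 (k / a).primeFactors + b : ℕ) else 1, fun k => ?_, fun T hT h => ?_⟩
    · beta_reduce
      split_ifs with h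
      exacts [Nat.isCoprime_iff_coprime.2 h, isCoprime_one_left]
    · beta_reduce
      rw [Nat.mul_div_cancel_left _ ha, Nat.primeFactors_prod fun p hp => (pr T hT p hp).1, if_pos]
      refine Nat.Coprime.mul_right ?_ (Nat.Coprime.prod_right fun p hp => ?_)
      · rw [Nat.coprime_mul_left_add_left]
        exact hab.symm
      · exact (((pr T hT p hp).1.coprime_iff_not_dvd).2 (h p hp)).symm
  have b1 := hbv w (X + a * N) (a * w ^ L) r (((2 * a + b) * N : ℕ) : ℝ) hw3 (by omega)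
    (by exact_mod_cast hX2) hK fun k _ => hr1 k
  have b2 := hbv w X (a * w ^ L) r (((2 * a + b) * N : ℕ) : ℝ) hw3 (by omega)
    (by exact_mod_cast (by omega : X ≤ (2 * a + b) * N)) hK fun k _ => hr1 k
  have b3 := hrest (X + a * N) (hX2.trans hY2)
  have hR : 0 ≤ 2 * √((X + a * N : ℕ) : ℝ) * Real.log (X + a * N : ℕ) :=
    mul_nonneg (by positivity) (Real.log_natCast_nonneg _)
  have t1 : ∑ T ∈ lev P (w ^ L), (if ∀ p ∈ T, ¬ p ∣ a * c0 T + b then err T (c0 T) else 0) ≤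
      (2 * (C * (2 * a + b)) + 2 * a * (u + 1) * (B + 1).factorial) * N / Real.log w ^ B := by
    have t := Err.sum_lev_le (D := w ^ L) ha (fun p hp => (hP p hp).1) (fun k =>
      |Err.cs (fun n => Λ n) (X + a * N) k (r k) - ((X + a * N : ℕ) : ℝ) / k.totient| +
      |Err.cs (fun n => Λ n) X k (r k) - (X : ℝ) / k.totient| +
      2 * √((X + a * N : ℕ) : ℝ) * Real.log (X + a * N : ℕ)) fun k => by positivity
    refine le_trans (sum_le_sum fun T hT => ?_) (t.trans ?_)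
    · split_ifs with h
      · rw [herr, hr2 T hT h, hα]
        exact Err.err_le (c0 T) ha hX (by omega) (pr T hT)
      · positivity
    · rw [sum_add_distrib, sum_add_distrib, sum_const, Nat.card_Icc, Nat.add_sub_cancel,
        nsmul_eq_mul]
      refine (add_le_add (add_le_add b1 b2) b3).trans (le_of_eq ?_)
      push_cast
      ring
  have t2 : ∀ T ∈ lev P (w ^ L), (if ∀ p ∈ T, ¬ p ∣ a * c0 T + b then err T (c0 T) else 0) ≤
      ((2 * (u + 1) + α) * Real.log w * N) * (2 ^ T.card * ∏ p ∈ T, 1 / (p : ℝ)) := by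
    intro T hT
    split_ifs with h
    · rw [herr]
      refine (Err.triv_le (Y := w ^ (u + 1)) (c0 T) ((u + 1) * Real.log w) α (hY.trans hY2)
        (fun p hp => (pr T hT p hp).1) ((Err.mem_lev.1 hT).2.trans hDN) ?_ hα0).trans ?_
      · push_cast
        rw [Real.log_pow]
        push_cast
        exact le_rfl
      · gcongr
        nlinarith
    · positivity
  have t3 : ∑ T ∈ lev P (w ^ L), ((2 * z ^ 2 : ℕ) : ℝ) ^ T.card * ∏ p ∈ T, 1 / (p : ℝ) ≤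
      (CM * (L + 1)) ^ (2 * z ^ 2) * Real.log w ^ (2 * z ^ 2) := by
    have h2 : 2 ≤ w ^ (L + 1) := le_trans (by omega) (Nat.le_self_pow (by omega) w)
    have t := (h0 P (w ^ (L + 1)) (2 * z ^ 2) (fun p hp => (hP p hp).1) h2).1
    refine le_trans (sum_le_sum_of_subset_of_nonneg (fun T hT => ?_) fun T _ _ => by positivity)
      (t.trans (le_of_eq ?_))
    · exact Err.mem_lev.2 ⟨(Err.mem_lev.1 hT).1,
        (Err.mem_lev.1 hT).2.trans (Nat.pow_le_pow_right (by omega) (by omega))⟩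
    · rw [← mul_pow]
      push_cast
      rw [Real.log_pow]
      push_cast
      ring
  have hl0 : 0 < Real.log w := by linarith
  refine (Err.weights (lam := Real.log w ^ (2 * z ^ 2 + 1 + A)) (by positivity) (by positivity)
    (fun T => ?_) t1 t2 t3).trans (le_of_eq ?_)
  · split_ifs
    exacts [herr0 _ _, le_rfl]
  · generalize ((B + 1).factorial : ℝ) = F
    rw [hB]
    field_simp
    ring

end Pool.Agent.P.MP_746f10_nt.Cel
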