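import Pool.Agent.P.MP_746f10_nt.Cel.Core

/-! The choice of the parameters. -/

set_option linter.unusedSectionVars false

namespace Pool.Agent.P.MP_746f10_nt.Cel

open Finset Filter

namespace Fin'

lemma num0 {m t : ℝ} (t0 : 0 < t) (hm : 0 ≤ m) (h : (m + 1) * t ≤ 1 / 100) :
    m * ((1 + 2 * t) * (t + (1 + 2 * t) * (4 + t))) < (4 * m + 1) * (1 - 3 * t) ^ 2 := by
  have h1 : t ≤ 1 / 100 := by nlinarith
  have h2 : (1 + 2 * t) * (t + (1 + 2 * t) * (4 + t)) ≤ 4 * (1 - 3 * t) ^ 2 + 45 * t := by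
    nlinarith [mul_pos t0 t0, mul_pos t0 (mul_pos t0 t0)]
  have h3 := mul_le_mul_of_nonneg_left h2 hm
  nlinarith

lemma num {m K x κ a1 a2 D G l t : ℝ} (t0 : 0 < t) (hm : 0 ≤ m) (h : (m + 1) * t ≤ 1 / 100)
    (hK : 0 < K) (hx : 0 < x) (hκ : 0 < κ) (h1 : 0 < a1) (h2 : 0 < a2) (hD : 0 < D) (hG : 0 < G)
    (hl : 0 < l) (c1 : a2 * l ≤ t * K * κ * a1) (c2 : l ≤ (4 + t) * κ * G) :
    m * (x * (a2 ^ 2 * D * (1 + 2 * t))) * l * (x * κ * (a1 * a2 * D * (1 - 3 * t)) +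
      K * (x * κ * (a1 ^ 2 * D * (1 + 2 * t)) / G)) <
      (4 * m + 1) * K * (x * κ * (a1 * a2 * D * (1 - 3 * t))) ^ 2 := by
  have h3 : t ≤ 1 / 100 := by nlinarith
  have b1 : l * (a1 * a2 * D * (1 - 3 * t)) ≤ K * κ * a1 ^ 2 * D * t := by
    calc _ ≤ l * (a1 * a2 * D * 1) := by gcongr; linarith
      _ = a2 * l * (a1 * D) := by ring
      _ ≤ t * K * κ * a1 * (a1 * D) := by gcongr
      _ = _ := by ring
  have b2 : l / G ≤ (4 + t) * κ := by rwa [div_le_iff₀ hG]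
  calc _ = m * (x ^ 2 * κ * a2 ^ 2 * D * (1 + 2 * t)) * (l * (a1 * a2 * D * (1 - 3 * t)) +
        K * (a1 ^ 2 * D * (1 + 2 * t)) * (l / G)) := by ring
    _ ≤ m * (x ^ 2 * κ * a2 ^ 2 * D * (1 + 2 * t)) * (K * κ * a1 ^ 2 * D * t +
        K * (a1 ^ 2 * D * (1 + 2 * t)) * ((4 + t) * κ)) := by gcongr
    _ = K * (x * κ * (a1 * a2 * D)) ^ 2 * (m * ((1 + 2 * t) * (t + (1 + 2 * t) * (4 + t)))) := by ring
    _ < K * (x * κ * (a1 * a2 * D)) ^ 2 * ((4 * m + 1) * (1 - 3 * t) ^ 2) :=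
        mul_lt_mul_of_pos_left (num0 t0 hm h) (by positivity)
    _ = _ := by ring

lemma core (hJ : S_JJ) (hP : S_Pair) (hA : S_Abs) (hM : S_Mst) {m K : ℕ}
    {a b : Fin (4 * m + 1) × Fin K → ℕ} {K0 v k w s M1 e1 L u q J : ℕ} {ε Θ : ℝ}
    (h : Sc a b K0 v k w s M1 e1 L u ε Θ (1 / (q * 4 ^ k))) (hK : 0 < K)
    (sv : SieveW (GP a w) (w ^ s) (k + 3) ε) (hq : q = 100 * (m + 1)) (h1 : 4 * 2 ^ J ≤ M1)
    (h2 : 4 * q * k * (J + 1) * CM ≤ M1) (h3 : q * (u + 1) = (4 * q + 1) * e1)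
    (h4 : (u + 1 : ℝ) ≤ 1 / q * K * ((J + 1) ^ 2 * s / (8 * CM))) :
    ∃ n, w ^ u ≤ n ∧ Many m a b n := by
  have hw := h.hw
  have hq0 : (0 : ℝ) < q := by rw [hq]; positivity
  have hCM := one_le_CM
  obtain ⟨k', rfl⟩ : ∃ k', k = k' + 2 := ⟨k - 2, by have := h.hk3; omega⟩
  set R := w ^ (s * M1) with hR
  set t : ℝ := 1 / q with ht
  have t0 : 0 < t := by positivity
  have t1 : (m + 1) * t ≤ 1 / 100 := by rw [ht, hq]; push_cast; field_simp; rfl
  have t2 : t ≤ 1 / 100 := by nlinarith [(Nat.cast_nonneg m : (0 : ℝ) ≤ m)]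
  have hη : (1 : ℝ) / (q * 4 ^ (k' + 2)) = t * (1 / 4) ^ (k' + 2) := by
    rw [ht, one_div_pow]; field_simp
  have hR1 : 1 ≤ R := Nat.one_le_pow _ _ (by omega)
  have hRs : w ^ (s * 2 ^ J) ≤ R :=
    Nat.pow_le_pow_right (by omega) (Nat.mul_le_mul_left _ (by omega))
  have A2 := a2_pos (w := w) (by omega) h.hs J
    (show w ^ s ≤ R from Nat.pow_le_pow_right (by omega) (Nat.le_mul_of_pos_right _ h.hM))
  have hg := gain (w := w) (J := J) (by omega) h.hs hRs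
  have lw : 0 < Real.log w := Real.log_pos (by exact_mod_cast (by omega : 1 < w))
  have hV := VV_pos w
  have hs' : (0 : ℝ) < s := by exact_mod_cast h.hs
  have A1 : 0 < a1 w s J R ^ 2 := lt_of_lt_of_le (by positivity) hg
  set α1 := a1 w s J R ^ 2
  set α2 := a2 w s J R
  have four : ∀ I : Finset (Fin (4 * m + 1) × Fin K), (1 / 4 : ℝ) ^ (k' + 2) ≤ JJ w s J R I :=
    fun I => h.hk ▸ JJ_ge_four (by omega) s J hR1 I
  have j0 : JJ w s J R (univ : Finset (Fin (4 * m + 1) × Fin K)) ≤ α2 ^ 2 * α2 ^ k' := by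
    refine (JJ_le _ _ _ _ _).trans (le_of_eq ?_)
    rw [compl_univ, card_empty, card_univ, h.hk]; ring
  have c1 : ∀ x : Fin (4 * m + 1) × Fin K, ({x}ᶜ : Finset _).card = k' + 1 := fun x => by
    rw [card_compl, h.hk, card_singleton]; omega
  have j1 : ∀ x : Fin (4 * m + 1) × Fin K, JJ w s J R ({x}ᶜ : Finset _) ≤ α1 * α2 * α2 ^ k' :=
    fun x => by
    refine (JJ_le _ _ _ _ _).trans (le_of_eq ?_)
    rw [compl_compl, card_singleton, c1]; ring
  have j1' : ∀ x : Fin (4 * m + 1) × Fin K,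
      (1 - t) * (α1 * α2 * α2 ^ k') ≤ JJ w s J R ({x}ᶜ : Finset _) := fun x => by
    refine le_trans (le_of_eq ?_) (hJ _ w s J M1 q {x}ᶜ (by omega) h.hs (by omega) (by simp) h1
      (by rw [h.hk]; exact h2))
    rw [compl_compl, card_singleton, c1]; ring
  have j2 : ∀ x y : Fin (4 * m + 1) × Fin K, x ≠ y →
      JJ w s J R ({x, y}ᶜ : Finset _) ≤ α1 ^ 2 * α2 ^ k' := fun x y hxy => by
    refine (JJ_le _ _ _ _ _).trans (le_of_eq ?_)
    rw [compl_compl, card_compl, card_pair hxy, h.hk]; rfl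
  have hx : 0 < (w : ℝ) ^ u * Vk a w := by have := h.Vpos; positivity
  have hκ : 0 < (VV w)⁻¹ := inv_pos.2 hV
  have hG := one_le_hh w (w ^ e1) (show 1 ≤ w ^ e1 from Nat.one_le_pow _ _ (by omega))
  obtain ⟨n, hn, I, hI, hI'⟩ := hA m (4 * m + 1) K (Ico (w ^ u) (2 * w ^ u))
    (fun n => sv.U (fun p => ev a b univ p n) * Fw a b w s J R univ n ^ 2)
    (fun x n => th (a x * n + b x)) ((u + 1) * Real.log w)
    (w ^ u * Vk a w * (α2 ^ 2 * α2 ^ k' * (1 + 2 * t)))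
    (w ^ u * Vk a w * (VV w)⁻¹ * (α1 * α2 * α2 ^ k' * (1 - 3 * t)))
    (w ^ u * Vk a w * (VV w)⁻¹ * (α1 ^ 2 * α2 ^ k' * (1 + 2 * t)) / hh w (w ^ e1) (w ^ e1))
    (fun n _ => mul_nonneg (sv.U_nonneg fun p _ => ⟨ev_nonneg _ _ _, ev_le_one _ _ _⟩) (sq_nonneg _))
    (fun x n hn => ⟨th_nonneg _, h.th_le hn x⟩) hK (by positivity)
    (by have : 0 < 1 - 3 * t := by linarith
        positivity) (by positivity)
    ((h.est0 hM sv J).trans (mul_le_mul_of_nonneg_left (by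
      have := mul_le_mul_of_nonneg_left ((four univ).trans j0) t0.le
      rw [hη]; linarith) hx.le))
    (fun x => le_trans (mul_le_mul_of_nonneg_left (by
      have := mul_le_mul_of_nonneg_left ((four {x}ᶜ).trans (j1 x)) t0.le
      have := j1' x
      rw [hη]; linarith) (by positivity)) (h.est1 hM sv J x))
    (fun x y hxy => (h.est2 hM hP sv J hxy).trans (div_le_div_of_nonneg_right
      (mul_le_mul_of_nonneg_left (by
        have := mul_le_mul_of_nonneg_left ((four {x, y}ᶜ).trans (j2 x y hxy)) t0.le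
        have := j2 x y hxy
        rw [hη]; linarith) (by positivity)) (by linarith)))
    (by
      push_cast
      refine num t0 (Nat.cast_nonneg m) t1 (by exact_mod_cast hK) hx hκ A1 A2 (by positivity)
        (by linarith) (by positivity) ?_ ?_
      · calc _ ≤ α2 * (t * K * ((J + 1) ^ 2 * s / (8 * CM)) * Real.log w) := by gcongr
          _ = t * K * (VV w)⁻¹ * ((J + 1) ^ 2 * (VV w * Real.log w * s) / (8 * CM) * α2) := by
              field_simp
          _ ≤ _ := by gcongr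
      · have h5 : (u + 1 : ℝ) = (4 + t) * e1 := by
          have : (q : ℝ) * (u + 1) = (4 * q + 1) * e1 := by exact_mod_cast h3
          rw [ht]; field_simp; linarith
        calc _ = (4 + t) * (VV w)⁻¹ * (VV w * Real.log w * e1) := by rw [h5]; field_simp
          _ ≤ _ := by gcongr; exact hh_pow_ge (by omega) le_rfl)
  exact ⟨n, (mem_Ico.1 hn).1, I, hI, fun i hi => (hI' i hi).imp fun _ => prime_of_th⟩

lemma pow_le (A α β d : ℕ) : ∃ m : ℕ, A * (α + β * m) ^ d ≤ 2 ^ m := by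
  have h := tendsto_pow_const_div_const_pow_of_one_lt d (r := 2) (by norm_num)
  have hp : (0 : ℝ) < 1 / (A * (α + β) ^ d + 1) := by positivity
  obtain ⟨m, h1, h2⟩ := ((h.eventually (gt_mem_nhds hp)).and (Filter.eventually_ge_atTop 1)).exists
  refine ⟨m, ?_⟩
  rw [div_lt_div_iff₀ (by positivity) (by positivity)] at h1
  have h3 : (A : ℝ) * (α + β * m) ^ d ≤ A * ((α + β) * m) ^ d := by
    have : (1 : ℝ) ≤ m := by exact_mod_cast h2
    gcongr; nlinarith [(Nat.cast_nonneg α : (0 : ℝ) ≤ α)]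
  have h4 : (0 : ℝ) ≤ (m : ℝ) ^ d := by positivity
  rw [mul_pow] at h3
  exact_mod_cast (by nlinarith : (A : ℝ) * (α + β * m) ^ d ≤ 2 ^ m)

lemma Vk_ge' {ι : Type} [Fintype ι] [DecidableEq ι] [Nonempty ι] {a b : ι → ℕ} {K v : ℕ}
    (hN : Nrm a b K v) (hK : 2 * Fintype.card ι ≤ K) {w : ℕ} (hw : 2 ≤ w) :
    1 / (CM * Real.log w) ^ (2 * Fintype.card ι) ≤ Vk a w := by
  have lw : 0 < Real.log w := Real.log_pos (by exact_mod_cast hw)
  have hCM := one_le_CM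
  calc _ ≤ VV w ^ (2 * Fintype.card ι) := by
        rw [← one_div_pow]
        refine pow_le_pow_left₀ (by positivity) ?_ _
        rw [one_div]
        exact inv_le_of_inv_le₀ (VV_pos w) (inv_VV_le w hw)
    _ ≤ (∏ p ∈ GP a w, (1 - 1 / (p : ℝ))) ^ (2 * Fintype.card ι) := by
        refine pow_le_pow_left₀ (VV_pos w).le (prod_le_prod_of_subset_of_le_one (filter_subset _ _)
          (fun p hp => (one_sub_inv_pos (PP_two hp)).le) fun p _ _ => ?_) _
        have : (0 : ℝ) ≤ 1 / p := by positivity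
        linarith
    _ ≤ _ := by
        rw [← prod_pow]
        refine prod_le_prod (fun p hp => pow_nonneg (one_sub_inv_pos
          (by exact_mod_cast (mem_GP.1 hp).2.1.two_le)).le _) fun p hp => pow_le_one_sub ?_ ?_
        · exact_mod_cast (hK.trans (hN.lt_of_mem hp).le)
        · exact_mod_cast (mem_GP.1 hp).2.1.one_le

lemma ev_log (C : ℝ) : ∀ᶠ w : ℕ in atTop, C ≤ Real.log w :=
  (Real.tendsto_log_atTop.comp tendsto_natCast_atTop_atTop).eventually_ge_atTop C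

lemma ev_pow (C : ℝ) (B : ℕ) : ∀ᶠ w : ℕ in atTop, C * Real.log w ^ B ≤ w := by
  have h := (Real.isLittleO_pow_log_id_atTop (n := B)).bound
    (show 0 < 1 / (|C| + 1) by positivity)
  filter_upwards [tendsto_natCast_atTop_atTop.eventually h] with w hw
  have h0 := Real.log_natCast_nonneg w
  simp only [id, Real.norm_eq_abs, Nat.abs_cast] at hw
  rw [abs_of_nonneg (by positivity), div_mul_eq_mul_div, one_mul, le_div_iff₀ (by positivity)] at hw
  have h1 : C * Real.log w ^ B ≤ (|C| + 1) * Real.log w ^ B := by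
    gcongr; linarith [le_abs_self C]
  linarith

end Fin'

open Fin' in
theorem pCellN (hE : S_Err) (hE0 : S_Err0) (hJ : S_JJ) (hP : S_Pair) (hA : S_Abs) (hM : S_Mst) :
    S_CellN := by
  intro m
  obtain ⟨c0, hc0⟩ : ∃ c0 : ℕ, CM ≤ c0 := ⟨_, Nat.le_ceil _⟩
  have hCM := one_le_CM
  have hc01 : 1 ≤ c0 := by exact_mod_cast hCM.trans hc0
  obtain ⟨q, hq⟩ : ∃ q, q = 100 * (m + 1) := ⟨_, rfl⟩
  obtain ⟨J, hJd⟩ : ∃ J, J = 1760 * q ^ 3 * (4 * m + 1) * c0 ^ 2 := ⟨_, rfl⟩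
  have hq1 : 1 ≤ q := by omega
  have hJ2 : 2 ≤ J := by
    have : 1 ≤ q ^ 3 * (4 * m + 1) * c0 ^ 2 := Nat.mul_pos (by positivity) (by positivity)
    rw [hJd]; linarith only [this]
  obtain ⟨K, hK⟩ : ∃ K, K = 2 ^ J := ⟨_, rfl⟩
  have hK4 : 4 ≤ K := hK ▸ (Nat.pow_le_pow_right two_pos hJ2 : 2 ^ 2 ≤ 2 ^ J)
  obtain ⟨k, hk⟩ : ∃ k, k = (4 * m + 1) * K := ⟨_, rfl⟩
  have hKk : K ≤ k := hk ▸ Nat.le_mul_of_pos_left _ (by omega)
  refine ⟨K, 2 * (k + 3), by omega, fun a b v hN N => ?_⟩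
  have hcard : Fintype.card (Fin (4 * m + 1) × Fin K) = k := by simp [hk]
  have : Nonempty (Fin (4 * m + 1) × Fin K) := Fintype.card_pos_iff.1 (by omega)
  obtain ⟨k0, hk0⟩ := exists_sieve (k + 3) (by positivity)
  obtain ⟨M1, hM1⟩ : ∃ M1, M1 = 4 * q * k * (J + 1) * c0 := ⟨_, rfl⟩
  have hkM : 4 * k ≤ M1 := by
    have : 1 ≤ q * (J + 1) * c0 := Nat.mul_pos (by positivity) hc01
    rw [hM1]; nlinarith only [this]
  obtain ⟨m', hm'⟩ := pow_le (6 * q * 4 ^ k) (c0 * q * ((2 + 4 * M1) * (4 * k0 + 6) + 5))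
    (c0 * q * (2 + 4 * M1) * 4) (5 * k + 8)
  obtain ⟨s, hs⟩ : ∃ s, s = 4 * (k0 + m') + 6 := ⟨_, rfl⟩
  obtain ⟨e1, he1⟩ : ∃ e1, e1 = q * (2 * s + 4 * (s * M1) + 5) := ⟨_, rfl⟩
  obtain ⟨L, hL⟩ : ∃ L, L = s + 2 * (s * M1 + e1) := ⟨_, rfl⟩
  obtain ⟨u, hu⟩ : ∃ u, u = 2 * L + 4 := ⟨_, rfl⟩
  obtain ⟨Θ, hΘ⟩ : ∃ Θ : ℝ, Θ = c0 * e1 := ⟨_, rfl⟩
  have hsM : s ≤ s * M1 := Nat.le_mul_of_pos_right _ (by omega)
  have he2 : 2 * s + 4 * (s * M1) + 5 ≤ e1 := he1 ▸ Nat.le_mul_of_pos_left _ hq1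
  have hm2 : 6 * q * 4 ^ k * Θ ^ (5 * k + 8) ≤ 2 ^ m' := by
    rw [show c0 * q * ((2 + 4 * M1) * (4 * k0 + 6) + 5) + c0 * q * (2 + 4 * M1) * 4 * m' = c0 * e1 by
      rw [he1, hs]; ring] at hm'
    rw [hΘ]; exact_mod_cast hm'
  have hΘ0 : 0 ≤ Θ := by rw [hΘ]; positivity
  have hq' : (0 : ℝ) < q := by exact_mod_cast hq1
  obtain ⟨η, hη⟩ : ∃ η : ℝ, η = 1 / (q * 4 ^ k) := ⟨_, rfl⟩
  have hη0 : 0 < η := by rw [hη]; positivity
  obtain ⟨z, hz⟩ : ∃ z, z = k * 2 ^ (2 * k + 1) := ⟨_, rfl⟩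
  choose C w0 hC using fun x => hE (a x) (b x) L u z (2 * k + 1) (hN.pos x) (hN.cop x) hu.ge
  obtain ⟨w, ⟨⟨⟨w1, w2⟩, w3⟩, w4⟩, w5⟩ := (((((eventually_ge_atTop
    (2 * v + 3 + 3 * (2 * (s * M1 + e1)) + N)).and
    (tendsto_natCast_atTop_atTop.eventually_ge_atTop
      (2 * Θ ^ (5 * k + 8) * (10 * (2 * (s * M1 + e1) : ℕ) + 20 * (k : ℝ) ^ 2) / η))).and
    (ev_pow (Θ ^ (5 * k + 8) * (CM * L) ^ z * CM ^ (2 * k) / η) (z + 2 * k))).and
    (eventually_all.2 fun x => eventually_ge_atTop (w0 x))).and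
    (eventually_all.2 fun x => ev_log (Θ ^ (5 * k + 8) * C x * CM ^ (2 * k) / η))).exists
  have hw' : (3 : ℝ) ≤ w := by exact_mod_cast (by omega : 3 ≤ w)
  have lw : 0 < Real.log w := Real.log_pos (by linarith)
  have hV := Vk_ge' hN (by omega) (show 2 ≤ w by omega)
  rw [hcard] at hV
  obtain ⟨sv⟩ := hk0 m' w (GP a w) (by omega) fun p hp => ⟨(mem_GP.1 hp).2.1, (mem_GP.1 hp).1⟩
  rw [← hs] at sv
  have hSc : Sc a b (2 * (k + 3)) v k w s M1 e1 L u (1 / 2 ^ m') Θ η :=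
    { hN := hN, hk := hcard, hk3 := by omega, hK := le_rfl, hvw := by omega, hw := by omega,
      hs := by omega, hM := by omega, he1 := by omega, hL := hL, hu := hu, hew := by omega,
      hε := by positivity, hη := hη0.le
      hΘ := by rw [hΘ]; exact (Th_le_pow (by omega) (by omega)).trans (by gcongr)
      hδ := by
        have h1 : Θ ^ (5 * k + 8) * (3 * (1 / 2 ^ m')) ≤ η / 2 := by
          rw [hη, mul_one_div, mul_div_assoc', div_div, div_le_div_iff₀ (by positivity) (by positivity)]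
          linarith
        have h2 : Θ ^ (5 * k + 8) * ((10 * (2 * (s * M1 + e1) : ℕ) + 20 * (k : ℝ) ^ 2) / w) ≤
            η / 2 := by
          rw [div_le_iff₀ hη0] at w2
          rw [mul_div_assoc', div_le_div_iff₀ (by linarith) (by norm_num)]
          linarith
        rw [add_div] at h2
        linarith
      hE0 := by
        have h1 := (hE0 (GP a (w ^ e1)) (w ^ L) z (fun p hp => (mem_GP.1 hp).2.1)
          (le_trans (by omega) (Nat.le_self_pow (by omega) w))).2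
        rw [Nat.cast_pow, Real.log_pow, hz] at h1
        rw [div_mul_eq_mul_div, div_le_iff₀ hη0] at w3
        have h2 : (w : ℝ) ^ L * w ≤ w ^ u := by
          rw [← pow_succ]; exact pow_le_pow_right₀ (by linarith) (by omega)
        calc _ ≤ Θ ^ (5 * k + 8) * (w ^ L * (CM * (L * Real.log w)) ^ z) := by
              rw [hz]; exact mul_le_mul_of_nonneg_left h1 (by positivity)
          _ = w ^ L * (Θ ^ (5 * k + 8) * (CM * L) ^ z * CM ^ (2 * k) * Real.log w ^ (z + 2 * k)) *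
              (1 / (CM * Real.log w) ^ (2 * k)) := by
              simp only [mul_pow, pow_add]; field_simp
          _ ≤ w ^ L * (w * η) * Vk a w := by gcongr
          _ = η * (w ^ L * w * Vk a w) := by ring
          _ ≤ _ := by
              have : 0 ≤ Vk a w := le_trans (by positivity) hV
              gcongr
      hE1 := fun x => by
        obtain ⟨E, h1, h2, h3⟩ := hC x w (w4 x) (GP a (w ^ e1))
          fun p hp => ⟨(mem_GP.1 hp).2.1, (mem_GP.1 hp).2.2 x⟩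
        refine ⟨E, h1, h2, ?_⟩
        have h4 := w5 x
        rw [div_le_iff₀ hη0] at h4
        rw [hz] at h3
        calc _ ≤ Θ ^ (5 * k + 8) * (C x * w ^ u / Real.log w ^ (2 * k + 1)) :=
              mul_le_mul_of_nonneg_left h3 (by positivity)
          _ = Θ ^ (5 * k + 8) * C x * CM ^ (2 * k) * (w ^ u / Real.log w *
              (1 / (CM * Real.log w) ^ (2 * k))) := by
              simp only [mul_pow, pow_succ]; field_simp
          _ ≤ Real.log w * η * (w ^ u / Real.log w * (1 / (CM * Real.log w) ^ (2 * k))) := by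
              gcongr
          _ = η * (w ^ u * (1 / (CM * Real.log w) ^ (2 * k))) := by field_simp
          _ ≤ _ := by gcongr }
  rw [hη] at hSc
  obtain ⟨n, hn, hM'⟩ := core hJ hP hA hM hSc (by omega) sv hq (J := J) (by omega)
    (by rw [hM1]; push_cast; gcongr) (by rw [hu, hL]; nlinarith only [he1]) (by
      have h1 : u + 1 ≤ 55 * q * (s * M1) := by
        have : e1 ≤ q * (11 * (s * M1)) := by rw [he1]; gcongr; omega
        nlinarith only [this, hu, hL, he2]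
      have h2 : (u + 1 : ℝ) ≤ 55 * q * (s * M1) := by exact_mod_cast h1
      have hc : (0 : ℝ) < c0 := by exact_mod_cast hc01
      have h3 : (1760 * q ^ 3 * (4 * m + 1) * c0 ^ 2 : ℝ) ≤ J + 1 := by
        rw [hJd]; push_cast; linarith
      calc _ ≤ _ := h2
        _ = 1 / q * K * ((J + 1) * (1760 * q ^ 3 * (4 * m + 1) * c0 ^ 2) * s / (8 * c0)) := by
            rw [hM1, hk]; push_cast; field_simp; ring
        _ ≤ _ := by rw [sq ((J : ℝ) + 1)]; gcongr)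
  exact ⟨n, le_trans (le_trans (by omega) (Nat.le_self_pow (by omega) w)) hn, hM'⟩

end Pool.Agent.P.MP_746f10_nt.Cel
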