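import Pool.Agent.P.MP_746f10_nt.Cel.Defs

/-! The truncation loses only a small factor, and the identities for the weight of a pair. -/

namespace Pool.Agent.P.MP_746f10_nt.Cel

open Finset

theorem pJJ : S_JJ := by
  intro κ _ _ w s0 J M q I hw hs hq hI hM1 hM2
  set R := w ^ (s0 * M) with hRdef
  have hM0 : 0 < M := lt_of_lt_of_le (by positivity) hM1
  have hlw : 0 < Real.log w := Real.log_pos (by exact_mod_cast hw)
  have hlR : Real.log R = s0 * M * Real.log w := by rw [hRdef]; push_cast; rw [Real.log_pow]; push_cast; ring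
  have hs' : (0 : ℝ) < s0 := by exact_mod_cast hs
  have hM' : (0 : ℝ) < M := by exact_mod_cast hM0
  have hlR0 : 0 < Real.log R := by rw [hlR]; positivity
  have hR4 : w ^ (4 * (s0 * 2 ^ J)) ≤ R :=
    Nat.pow_le_pow_right (by omega) (by nlinarith)
  have hR1 : w ^ s0 ≤ R := Nat.pow_le_pow_right (by omega) (by nlinarith)
  have hv : 0 < VV w * Real.log w * s0 := by have := VV_pos w; positivity
  set c : ℝ := s0 * Real.log w * (2 * (J + 1) * CM) with hc
  have ha3 : ∑ r ∈ (PP w R).powerset, gg w s0 J r ^ 2 * ip r * Real.log (∏ p ∈ r, p : ℕ) ≤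
      c * a2 w s0 J R := by
    refine (a3_le hw J R).trans ?_
    have h1 := a1_le hw hs J R
    have h2 := a2_ge hw J hR1
    have := one_le_CM
    rw [hc, mul_assoc (s0 * Real.log w)]
    refine mul_le_mul_of_nonneg_left ?_ (by positivity)
    have : (2 * (J + 1) * CM) * (VV w * Real.log w * s0 / 4) ≤ (2 * (J + 1) * CM) * a2 w s0 J R :=
      mul_le_mul_of_nonneg_left h2 (by positivity)
    linarith
  -- the logarithmic moment
  have hlog : ∑ S ∈ (AA w R I).powerset, (∏ l ∈ I, (gg w s0 J (sl S l) ^ 2 * ip (sl S l))) *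
      Real.log (dd Prod.fst S) ≤ I.card * (c * a2 w s0 J R ^ I.card) := by
    have e1 : ∀ S ∈ (AA w R I).powerset, (∏ l ∈ I, (gg w s0 J (sl S l) ^ 2 * ip (sl S l))) *
        Real.log (dd Prod.fst S) = ∑ l0 ∈ I, ∏ l ∈ I, (gg w s0 J (sl S l) ^ 2 * ip (sl S l) *
          if l = l0 then Real.log (∏ p ∈ sl S l, p : ℕ) else 1) := by
      intro S hS
      have hS' := mem_powerset.1 hS
      unfold dd
      rw [prod_sl hS' (fun p => p), Nat.cast_prod, Real.log_prod, mul_sum]
      · refine sum_congr rfl fun l0 hl0 => ?_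
        rw [prod_mul_distrib (f := fun l => gg w s0 J (sl S l) ^ 2 * ip (sl S l)), prod_ite_eq',
          if_pos hl0]
      · intro l _
        have : 0 < ∏ p ∈ sl S l, p := prod_pos fun p hp => (PP_prime (sl_sub hS' l hp)).pos
        exact_mod_cast this.ne'
    rw [sum_congr rfl e1, sum_comm]
    have e2 : ∀ l0 ∈ I, ∑ S ∈ (AA w R I).powerset, ∏ l ∈ I, (gg w s0 J (sl S l) ^ 2 * ip (sl S l) *
          if l = l0 then Real.log (∏ p ∈ sl S l, p : ℕ) else 1) ≤ c * a2 w s0 J R ^ I.card := by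
      intro l0 hl0
      rw [sum_AA_prod w R I (fun l r => gg w s0 J r ^ 2 * ip r *
          if l = l0 then Real.log (∏ p ∈ r, p : ℕ) else 1)]
      calc _ ≤ ∏ l ∈ I, (a2 w s0 J R * if l = l0 then c else 1) := by
            refine prod_le_prod (fun l _ => sum_nonneg fun r hr => mul_nonneg
              (mul_nonneg (sq_nonneg _) (ip_nonneg (mem_powerset.1 hr))) ?_) fun l _ => ?_
            · split_ifs
              · exact Real.log_natCast_nonneg _
              · norm_num
            · by_cases hl : l = l0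
              · simp only [hl, if_true]; linarith
              · simp only [hl, if_false, mul_one]; exact le_rfl
        _ = _ := by rw [prod_mul_distrib, prod_ite_eq', if_pos hl0, prod_const, mul_comm]
    calc _ ≤ ∑ l0 ∈ I, c * a2 w s0 J R ^ I.card := sum_le_sum e2
      _ = _ := by simp
  have hmain : ∑ S ∈ (AA w R I).powerset, (a1 w s0 J R ^ 2) ^ Iᶜ.card *
      ((∏ l ∈ I, (gg w s0 J (sl S l) ^ 2 * ip (sl S l))) *
        (1 - 2 / Real.log R * Real.log (dd Prod.fst S))) ≤ JJ w s0 J R I := by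
    refine sum_le_sum fun S hS => ?_
    have hS' := mem_powerset.1 hS
    have hph := ph_nonneg (π := Prod.fst) fun a ha => AA_two a (hS' ha)
    have hP : 0 ≤ ∏ l ∈ I, (gg w s0 J (sl S l) ^ 2 * ip (sl S l)) :=
      prod_nonneg fun l _ => mul_nonneg (sq_nonneg _) (ip_nonneg (sl_sub hS' l))
    have hd1 : 0 < dd Prod.fst S := dd_pos fun a ha => AA_two a (hS' ha)
    by_cases hd : dd Prod.fst S ^ 2 ≤ R
    · rw [yI_eq (by omega) hI hR4 hS' hd]
      have h0 : 0 ≤ 2 / Real.log R * Real.log (dd Prod.fst S) :=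
        mul_nonneg (by positivity) (Real.log_natCast_nonneg _)
      calc _ ≤ (a1 w s0 J R ^ 2) ^ Iᶜ.card * (∏ l ∈ I, (gg w s0 J (sl S l) ^ 2 * ip (sl S l))) :=
            mul_le_mul_of_nonneg_left (mul_le_of_le_one_right hP (by linarith)) (by positivity)
        _ = _ := by
            rw [prod_mul_distrib, ← ph_eq_sl hS', mul_pow, prod_pow, ← pow_mul, ← pow_mul,
              mul_comm 2]; ring
    · have h1 : Real.log R ≤ 2 * Real.log (dd Prod.fst S) := by
        have : Real.log R ≤ Real.log ((dd Prod.fst S : ℝ) ^ 2) :=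
          Real.log_le_log (by positivity) (by exact_mod_cast (not_le.1 hd).le)
        rw [Real.log_pow] at this; exact_mod_cast this
      have h2 : 1 - 2 / Real.log R * Real.log (dd Prod.fst S) ≤ 0 := by
        rw [div_mul_eq_mul_div, sub_nonpos, le_div_iff₀ hlR0]; linarith
      exact le_trans (mul_nonpos_of_nonneg_of_nonpos (by positivity)
        (mul_nonpos_of_nonneg_of_nonpos hP h2)) (mul_nonneg (sq_nonneg _) hph)
  refine le_trans ?_ hmain
  rw [← mul_sum, mul_left_comm]
  refine mul_le_mul_of_nonneg_left ?_ (by positivity)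
  simp_rw [mul_sub, mul_one, mul_left_comm _ (2 / Real.log R)]
  rw [sum_sub_distrib, sum_sq_eq, ← mul_sum]
  have h3 := mul_le_mul_of_nonneg_left hlog (show 0 ≤ 2 / Real.log R by positivity)
  have hq' : (0 : ℝ) < q := by exact_mod_cast hq
  have h4 : 2 / Real.log R * (I.card * c) ≤ 1 / q := by
    rw [hlR, hc, div_mul_eq_mul_div, div_le_div_iff₀ (by positivity) hq']
    have h5 : (I.card : ℝ) ≤ Fintype.card κ := by exact_mod_cast card_le_univ I
    have := one_le_CM
    have h6 : (I.card : ℝ) * (q * ((J + 1) * CM)) ≤ Fintype.card κ * (q * ((J + 1) * CM)) :=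
      mul_le_mul_of_nonneg_right h5 (by positivity)
    have h7 : 4 * (I.card * (q * ((J + 1) * CM))) ≤ (M : ℝ) := by linarith
    have h8 := mul_le_mul_of_nonneg_left h7 (show 0 ≤ s0 * Real.log w by positivity)
    linarith
  have h5 := mul_le_mul_of_nonneg_right h4 (pow_nonneg (a2_nonneg w s0 J R) I.card)
  linarith

namespace JJP

variable {κ : Type} [Fintype κ] [DecidableEq κ]

omit [Fintype κ] [DecidableEq κ] in
lemma AA_mono {w R ξ : ℕ} (h : R ≤ ξ) (I : Finset κ) : AA w R I ⊆ AA w ξ I := by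
  intro a ha
  obtain ⟨h1, h2⟩ := mem_product.1 ha
  obtain ⟨h3, h4, h5⟩ := mem_PP.1 h1
  exact mem_product.2 ⟨mem_PP.2 ⟨h3, h4.trans h, h5⟩, h2⟩

omit [Fintype κ] in
lemma filter_ne {w ξ : ℕ} {I : Finset κ} {j : κ} (hj : j ∉ I) {S : Finset (ℕ × κ)}
    (hS : S ⊆ AA w ξ I) (r : Finset ℕ) :
    (S ∪ r.image (fun p => (p, j))).filter (fun x => x.2 ≠ j) = S := by
  ext a
  simp only [mem_filter, mem_union, mem_image]
  constructor
  · rintro ⟨h | ⟨p, _, rfl⟩, h2⟩
    · exact h
    · exact absurd rfl h2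
  · intro h
    exact ⟨Or.inl h, fun e => hj (e ▸ (mem_product.1 (hS h)).2)⟩

omit [Fintype κ] in
lemma sl_eq {w ξ : ℕ} {I : Finset κ} {j : κ} (hj : j ∉ I) {S : Finset (ℕ × κ)}
    (hS : S ⊆ AA w ξ I) (r : Finset ℕ) : sl (S ∪ r.image (fun p => (p, j))) j = r := by
  rw [sl_union, sl_eq_empty hS hj, empty_union]
  ext p
  simp [sl]

/-- the sum over sets of atoms splits off the coordinate `j` -/
lemma split {w s0 J R ξ : ℕ} {I : Finset κ} {j : κ} (hj : j ∉ I) (hR : R ≤ ξ) (φ : ℝ → ℝ)
    (hφ : φ 0 = 0) (g : ℕ × κ → ℝ) (hg : ∀ p ∈ PP w ξ, g (p, j) = ((p : ℝ) - 1)⁻¹) :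
    ∑ U ∈ (AA w ξ (insert j I)).powerset, φ (y2 w s0 J R ξ I j U) * ∏ a ∈ U, g a =
      (∑ S ∈ (AA w R I).powerset, φ (yI w s0 J R I S) * ∏ a ∈ S, g a) * hh w ξ ξ := by
  have hd : Disjoint (AA w ξ I) (AA w ξ {j}) := AA_disj w ξ (by simpa using hj)
  have hsub : (AA w R I).powerset ⊆ (AA w ξ I).powerset := powerset_mono.2 (AA_mono hR I)
  rw [insert_eq, union_comm, AA_union, sum_powerset_union hd, sum_mul, ← sum_subset hsub]
  · refine sum_congr rfl fun S hS => ?_
    have hS0 := mem_powerset.1 hS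
    have hS1 : S ⊆ AA w ξ I := hS0.trans (AA_mono hR I)
    rw [sum_AA_single, hh_eq, mul_sum]
    refine sum_congr rfl fun r hr => ?_
    have hdis : Disjoint S (r.image (fun p => (p, j))) := by
      rw [disjoint_left]
      intro a ha hb
      obtain ⟨p, _, rfl⟩ := mem_image.1 hb
      exact hj (mem_product.1 (hS1 ha)).2
    have hip : ∏ a ∈ r.image (fun p => (p, j)), g a = ip r := by
      rw [prod_image (fun p _ q _ h => congrArg Prod.fst h)]
      exact prod_congr rfl fun p hp => hg p (mem_powerset.1 hr hp)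
    rw [prod_union hdis, hip]
    unfold y2
    rw [filter_ne hj hS1, sl_eq hj hS1, if_pos hS0]
    by_cases hc : ∏ p ∈ r, p ≤ ξ
    · rw [if_pos hc, mul_one]; ring
    · rw [if_neg hc, mul_zero, hφ]; ring
  · intro S hS hS'
    have hS1 := mem_powerset.1 hS
    rw [sum_AA_single]
    refine sum_eq_zero fun r _ => ?_
    unfold y2
    rw [filter_ne hj hS1, if_neg (fun h => hS' (mem_powerset.2 h)), zero_mul, hφ, zero_mul]

end JJP

theorem pPair : S_Pair := by
  intro κ _ _ w s0 J R ξ I j hj hR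
  refine ⟨fun S => ?_, fun S _ h => ?_, ?_, fun B hB => ?_⟩
  · have h0 : 0 ≤ Th w R ^ Iᶜ.card := pow_nonneg (zero_le_one.trans (one_le_Th w R)) _
    unfold y2
    split_ifs
    · rw [mul_one]; exact abs_yI_le _ _ _ _ _ _
    all_goals simpa using h0
  · unfold y2 at h
    have h1 := left_ne_zero_of_mul h
    have h2 := right_ne_zero_of_mul h
    have h3 : S.filter (fun x => x.2 ≠ j) ⊆ AA w R I := by
      by_contra hc
      exact h1 (if_neg hc)
    have h4 : ∏ p ∈ sl S j, p ≤ ξ := by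
      by_contra hc
      exact h2 (if_neg hc)
    rw [if_pos h3] at h1
    have h5 := yI_supp h3 h1
    have h6 : ∏ p ∈ sl S j, p = ∏ a ∈ S.filter (fun x => x.2 = j), a.1 := by
      rw [sl, prod_image]
      intro a ha b hb h
      exact Prod.ext h ((mem_filter.1 ha).2.trans (mem_filter.1 hb).2.symm)
    unfold dd at h5 ⊢
    rw [← prod_filter_mul_prod_filter_not S (fun x => x.2 = j), mul_comm, ← h6]
    exact Nat.mul_le_mul h5 h4
  · exact JJP.split hj hR (fun x => x ^ 2) (by norm_num) (fun a => ((a.1 : ℝ) - 1)⁻¹)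
      (fun _ _ => rfl)
  · exact JJP.split hj hR (fun x => x) rfl (fun a => (1 - a.1 * B a) / ((a.1 : ℝ) - 1))
      (fun p hp => by simp [hB p hp])

end Pool.Agent.P.MP_746f10_nt.Cel
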