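import Pool.Agent.P.MP_746f10_nt.Cel.Defs

/-! The second moment argument. -/

namespace Pool.Agent.P.MP_746f10_nt.Cel

open Finset

namespace Abs

open Classical in
/-- the second moment of one cell -/
lemma second {K : ℕ} {Ω : Finset ℕ} {W : ℕ → ℝ} {μ : Fin K → ℕ → ℝ} {l γ : ℝ}
    (hW : ∀ n ∈ Ω, 0 ≤ W n) (hμ : ∀ s, ∀ n ∈ Ω, 0 ≤ μ s n ∧ μ s n ≤ l) (hl : 0 < l) (hγ : 0 ≤ γ)
    (h2 : ∀ s t, s ≠ t → ∑ n ∈ Ω, μ s n * (if μ t n ≠ 0 then 1 else 0) * W n ≤ γ) :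
    ∑ n ∈ Ω, (∑ s, μ s n) ^ 2 * W n ≤ l * ∑ n ∈ Ω, (∑ s, μ s n) * W n + l * (K * K * γ) := by
  have h : ∀ s t, ∑ n ∈ Ω, μ s n * μ t n * W n ≤
      (if s = t then l * ∑ n ∈ Ω, μ s n * W n else 0) + l * γ := fun s t => by
    split_ifs with e
    · subst e
      rw [mul_sum]
      refine le_add_of_le_of_nonneg (sum_le_sum fun n hn => ?_) (mul_nonneg hl.le hγ)
      have := mul_le_mul_of_nonneg_right (hμ s n hn).2 (mul_nonneg (hμ s n hn).1 (hW n hn))
      linarith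
    · rw [zero_add]
      refine le_trans ?_ (mul_le_mul_of_nonneg_left (h2 s t e) hl.le)
      rw [mul_sum]
      refine sum_le_sum fun n hn => ?_
      split_ifs with e'
      · have := mul_le_mul_of_nonneg_right (hμ t n hn).2 (mul_nonneg (hμ s n hn).1 (hW n hn))
        linarith
      · simp [not_not.mp e']
  calc ∑ n ∈ Ω, (∑ s, μ s n) ^ 2 * W n = ∑ s, ∑ t, ∑ n ∈ Ω, μ s n * μ t n * W n := by
        simp only [sq, sum_mul_sum]
        simp only [sum_mul]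
        rw [sum_comm]
        exact sum_congr rfl fun s _ => sum_comm
    _ ≤ ∑ s : Fin K, ∑ t : Fin K, ((if s = t then l * ∑ n ∈ Ω, μ s n * W n else 0) + l * γ) :=
        sum_le_sum fun s _ => sum_le_sum fun t _ => h s t
    _ = _ := by
        simp only [sum_add_distrib, sum_ite_eq, mem_univ, if_true, sum_const, card_univ,
          Fintype.card_fin, nsmul_eq_mul, sum_mul]
        rw [← mul_sum, sum_comm]
        ring

open Classical in
/-- the weight of the points where a cell is hit -/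
lemma cell {K : ℕ} {Ω : Finset ℕ} {W : ℕ → ℝ} {μ : Fin K → ℕ → ℝ} {l β γ : ℝ}
    (hW : ∀ n ∈ Ω, 0 ≤ W n) (hμ : ∀ s, ∀ n ∈ Ω, 0 ≤ μ s n ∧ μ s n ≤ l) (hl : 0 < l) (hβ : 0 < β)
    (hγ : 0 ≤ γ) (h1 : ∀ s, β ≤ ∑ n ∈ Ω, μ s n * W n)
    (h2 : ∀ s t, s ≠ t → ∑ n ∈ Ω, μ s n * (if μ t n ≠ 0 then 1 else 0) * W n ≤ γ) :
    K * β ^ 2 ≤ l * (β + K * γ) * ∑ n ∈ Ω, (if ∃ s, μ s n ≠ 0 then 1 else 0) * W n := by
  have hK : (0 : ℝ) ≤ K * γ := by positivity
  have hd : 0 < l * (β + K * γ) := by positivity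
  obtain ⟨t, ht⟩ : ∃ t, t * (l * (β + K * γ)) = β := ⟨_, div_mul_cancel₀ β hd.ne'⟩
  have t0 : 0 < t := (mul_pos_iff_of_pos_right hd).mp (ht.symm ▸ hβ)
  have t1 : t * l ≤ 1 := by
    refine le_of_mul_le_mul_right ?_ (show 0 < β + K * γ by positivity)
    rw [mul_assoc, ht]
    linarith
  have hx : K * β ≤ ∑ n ∈ Ω, (∑ s, μ s n) * W n := by
    simp only [sum_mul]
    rw [sum_comm]
    simpa using card_nsmul_le_sum univ _ β fun s _ => h1 s
  have hp : 2 * t * ∑ n ∈ Ω, (∑ s, μ s n) * W n - t ^ 2 * ∑ n ∈ Ω, (∑ s, μ s n) ^ 2 * W n ≤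
      ∑ n ∈ Ω, (if ∃ s, μ s n ≠ 0 then 1 else 0) * W n := by
    rw [mul_sum, mul_sum, ← sum_sub_distrib]
    refine sum_le_sum fun n hn => ?_
    split_ifs with e
    · have := mul_nonneg (sq_nonneg (t * (∑ s, μ s n) - 1)) (hW n hn)
      linarith
    · simp [sum_eq_zero fun s _ => not_not.mp fun h => e ⟨s, h⟩]
  have hs := mul_le_mul_of_nonneg_left (second hW hμ hl hγ h2) (sq_nonneg t)
  have hy := mul_le_mul_of_nonneg_left hx (show 0 ≤ t * (2 - t * l) by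
    exact mul_nonneg t0.le (by linarith))
  have : t * (K * β) ≤ ∑ n ∈ Ω, (if ∃ s, μ s n ≠ 0 then 1 else 0) * W n := by
    have e : t ^ 2 * (l * (K * K * γ)) + t * (t * l) * (K * β) = t * (K * β) := by
      linear_combination (t * K) * ht
    linarith
  calc (K : ℝ) * β ^ 2 = l * (β + K * γ) * (t * (K * β)) := by linear_combination (-K * β) * ht
    _ ≤ _ := mul_le_mul_of_nonneg_left this hd.le

end Abs

theorem pAbs : S_Abs := by
  classical
  intro m M K Ω W μ l α β γ hW hμ _ hl hβ hγ hα h1 h2 h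
  by_contra! hc
  have hd : 0 ≤ l * (β + K * γ) := by positivity
  have a1 : ∑ i : Fin M, ∑ n ∈ Ω, (if ∃ s, μ (i, s) n ≠ 0 then 1 else 0) * W n ≤ m * α := by
    rw [sum_comm]
    refine le_trans ?_ (mul_le_mul_of_nonneg_left hα m.cast_nonneg)
    rw [mul_sum]
    refine sum_le_sum fun n hn => ?_
    rw [← sum_mul, sum_boole]
    refine mul_le_mul_of_nonneg_right (Nat.cast_le.mpr (le_of_not_gt fun hm => ?_)) (hW n hn)
    obtain ⟨i, hi, hs⟩ := hc n hn _ hm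
    obtain ⟨s, hs'⟩ := (mem_filter.mp hi).2
    exact hs' (hs s)
  have a2 := card_nsmul_le_sum univ _ _ fun (i : Fin M) _ =>
    Abs.cell (μ := fun s => μ (i, s)) hW (fun s => hμ _) hl hβ hγ (fun s => h1 _) fun s t e => by
      convert h2 (i, s) (i, t) fun e' => e (Prod.ext_iff.mp e').2
  rw [← mul_sum, card_univ, Fintype.card_fin, nsmul_eq_mul] at a2
  have a3 := a2.trans (mul_le_mul_of_nonneg_left (by convert a1) hd)
  linarith

end Pool.Agent.P.MP_746f10_nt.Cel
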