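import Pool.Agent.P.MP_746f10_nt.Cel.Defs

/-! Transfer of the sieve sums to an exact model. -/

set_option linter.unusedSectionVars false

namespace Pool.Agent.P.MP_746f10_nt.Cel

open Finset

namespace Mst

variable {ι : Type} [Fintype ι] [DecidableEq ι] {a b : ι → ℕ}

lemma ind_prod {T : Finset ℕ} (hT : ∀ p ∈ T, p.Prime) (c c0 : ℕ) :
    (if c ≡ c0 [MOD ∏ p ∈ T, p] then (1 : ℝ) else 0) =
      ∏ p ∈ T, if c ≡ c0 [MOD p] then (1 : ℝ) else 0 := by
  induction T using Finset.induction_on with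
  | empty => simp [Nat.modEq_one]
  | insert q T hq ih =>
    have hT' : ∀ p ∈ T, p.Prime := fun p hp => hT p (mem_insert_of_mem hp)
    have hco : q.Coprime (∏ p ∈ T, p) := Nat.Coprime.prod_right fun p hp =>
      (Nat.coprime_primes (hT q (mem_insert_self _ _)) (hT' p hp)).2 (by rintro rfl; exact hq hp)
    rw [prod_insert hq, prod_insert hq, ← ih hT']
    by_cases h1 : c ≡ c0 [MOD q]
    · by_cases h2 : c ≡ c0 [MOD ∏ p ∈ T, p]
      · rw [if_pos h1, if_pos h2, if_pos ((Nat.modEq_and_modEq_iff_modEq_mul hco).1 ⟨h1, h2⟩), mul_one]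
      · rw [if_neg h2, mul_zero, if_neg fun h => h2 (h.of_mul_left _)]
    · rw [if_neg h1, zero_mul, if_neg fun h => h1 (h.of_mul_right _)]

variable (a b) in
/-- the model measure on residues -/
noncomputable def mm (P : Finset ℕ) (Γ : Finset ι) (X : ℝ) (c : ℕ) : ℝ :=
  X * ∏ p ∈ P, (1 - ev a b Γ p c) / ((p : ℝ) - Γ.card)

lemma sub_pos' {p : ℕ} (hp : p.Prime) {Γ : Finset ι} (hΓ : Γ.card ≤ 1) :
    (0 : ℝ) < (p : ℝ) - Γ.card := by
  have h1 : (2 : ℝ) ≤ p := by exact_mod_cast hp.two_le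
  have h2 : (Γ.card : ℝ) ≤ 1 := by exact_mod_cast hΓ
  linarith

lemma mm_nonneg {P : Finset ℕ} (hP : ∀ p ∈ P, GoodP a b p) {Γ : Finset ι} (hΓ : Γ.card ≤ 1) {X : ℝ}
    (hX : 0 ≤ X) (c : ℕ) : 0 ≤ mm a b P Γ X c :=
  mul_nonneg hX (prod_nonneg fun p hp =>
    div_nonneg (by linarith [ev_le_one (a := a) (b := b) Γ p c]) (sub_pos' (hP p hp).prime hΓ).le)

lemma mm_class {P : Finset ℕ} (hP : ∀ p ∈ P, GoodP a b p) {Γ : Finset ι} (hΓ : Γ.card ≤ 1) (X : ℝ)
    {T : Finset ℕ} (hT : T ⊆ P) (c0 : ℕ) :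
    ∑ c ∈ range (∏ p ∈ P, p), mm a b P Γ X c * (if c ≡ c0 [MOD ∏ p ∈ T, p] then 1 else 0) =
      X * ∏ p ∈ T, (1 - ev a b Γ p c0) / ((p : ℝ) - Γ.card) := by
  set φ : ℕ → ℕ → ℝ := fun p c => (1 - ev a b Γ p c) / ((p : ℝ) - Γ.card) *
    if p ∈ T then (if c ≡ c0 [MOD p] then 1 else 0) else 1 with hφ
  have e1 : ∀ c, mm a b P Γ X c * (if c ≡ c0 [MOD ∏ p ∈ T, p] then 1 else 0) =
      X * ∏ p ∈ P, φ p c := by
    intro c
    rw [ind_prod fun p hp => (hP p (hT hp)).prime, mm, mul_assoc, hφ, prod_mul_distrib,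
      prod_ite_mem, inter_eq_right.2 hT]
  simp_rw [e1]
  rw [← mul_sum, sum_range_prod (fun p hp => (hP p hp).prime) φ fun p c => by
    have h1 : (c % p ≡ c0 [MOD p]) ↔ (c ≡ c0 [MOD p]) :=
      ⟨(Nat.mod_modEq c p).symm.trans, (Nat.mod_modEq c p).trans⟩
    simp only [hφ, ev_mod, h1]]
  congr 1
  rw [← inter_eq_right.2 hT, ← prod_ite_mem]
  refine prod_congr rfl fun p hp => ?_
  have hp0 := (hP p hp).prime.pos
  by_cases h : p ∈ T
  · simp only [hφ, if_pos h]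
    rw [sum_eq_single_of_mem (c0 % p) (mem_range.2 (Nat.mod_lt _ hp0))]
    · rw [if_pos (Nat.mod_modEq c0 p), mul_one, ev_mod]
    · intro c hc hne
      rw [if_neg, mul_zero]
      intro h2; apply hne
      rw [← Nat.mod_eq_of_lt (mem_range.1 hc)]; exact h2
  · simp only [hφ, if_neg h, mul_one]
    rw [← sum_div, sum_sub_distrib, (hP p hp).sum_ev, sum_const, card_range, nsmul_eq_mul, mul_one,
      div_self (sub_pos' (hP p hp).prime hΓ).ne']

lemma mm_HC {P : Finset ℕ} (hP : ∀ p ∈ P, GoodP a b p) {Γ : Finset ι} (hΓ : Γ.card ≤ 1) (X : ℝ)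
    (Lvl : ℕ) : HC a b (range (∏ p ∈ P, p)) (mm a b P Γ X) P Γ X
      (fun p => 1 + Γ.card / ((p : ℝ) - Γ.card)) 0 Lvl := by
  intro T hT _ c hc
  rw [mm_class hP hΓ X hT c, ← mul_sub, abs_nonpos_iff, mul_eq_zero, sub_eq_zero]
  refine Or.inr (prod_congr rfl fun p hp => ?_)
  have h1 := sub_pos' (hP p (hT hp)).prime hΓ
  have h2 : (p : ℝ) ≠ 0 := by exact_mod_cast (hP p (hT hp)).prime.ne_zero
  rw [ev_eq_zero.2 (hc p hp)]
  field_simp
  ring

lemma expand (Ω : Finset ℕ) (μ h : ℕ → ℝ) {q : ℕ} (hq : 0 < q) (hh : ∀ c, h (c % q) = h c) :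
    ∑ n ∈ Ω, μ n * h n =
      ∑ c ∈ range q, h c * ∑ n ∈ Ω, μ n * (if n ≡ c [MOD q] then 1 else 0) := by
  simp_rw [mul_sum]
  rw [sum_comm]
  refine sum_congr rfl fun n _ => ?_
  rw [sum_eq_single_of_mem (n % q) (mem_range.2 (Nat.mod_lt _ hq))]
  · rw [if_pos (Nat.mod_modEq n q).symm, mul_one, mul_comm, hh]
  · intro c hc hne
    rw [if_neg, mul_zero, mul_zero]
    intro h2; apply hne
    rw [← Nat.mod_eq_of_lt (mem_range.1 hc)]; exact h2.symm

lemma tr1 {Ω Ω' : Finset ℕ} {μ μ' : ℕ → ℝ} {T : Finset ℕ} (hT : ∀ p ∈ T, GoodP a b p) {E : ℝ}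
    (hE : ∀ c, |∑ n ∈ Ω, μ n * (if n ≡ c [MOD ∏ p ∈ T, p] then 1 else 0) -
      ∑ n ∈ Ω', μ' n * (if n ≡ c [MOD ∏ p ∈ T, p] then 1 else 0)| ≤ E) (h : ℕ → ℝ)
    (hh : ∀ c, h (c % ∏ p ∈ T, p) = h c) (h1 : ∀ c, |h c| ≤ ∏ p ∈ T, ev a b univ p c) :
    |∑ n ∈ Ω, μ n * h n - ∑ n ∈ Ω', μ' n * h n| ≤ (Fintype.card ι : ℝ) ^ T.card * E := by
  have hq : 0 < ∏ p ∈ T, p := prod_pos fun p hp => (hT p hp).prime.pos
  have hE0 : 0 ≤ E := (abs_nonneg _).trans (hE 0)
  rw [expand Ω μ h hq hh, expand Ω' μ' h hq hh, ← sum_sub_distrib]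
  refine (abs_sum_le_sum_abs _ _).trans ?_
  calc _ ≤ ∑ c ∈ range (∏ p ∈ T, p), (∏ p ∈ T, ev a b univ p c) * E := by
        refine sum_le_sum fun c _ => ?_
        rw [← mul_sub, abs_mul]
        exact mul_le_mul (h1 c) (hE c) (abs_nonneg _) (prod_nonneg fun p _ => ev_nonneg _ _ _)
    _ = _ := by
        rw [← sum_mul, sum_range_prod (fun p hp => (hT p hp).prime) _ fun p c => ev_mod _ _ _,
          prod_congr rfl fun p hp => (hT p hp).sum_ev univ, prod_const, card_univ]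

/-- the primes that occur in a term -/
def pr (x : Finset ℕ × Finset (ℕ × ι) × Finset (ℕ × ι)) : Finset ℕ :=
  x.1 ∪ (x.2.1 ∪ x.2.2).image Prod.fst

variable (a b) in
/-- a term of the expansion -/
noncomputable def tm (x : Finset ℕ × Finset (ℕ × ι) × Finset (ℕ × ι)) (n : ℕ) : ℝ :=
  (∏ p ∈ x.1, ev a b univ p n) * ∏ z ∈ x.2.1 ∪ x.2.2, BB a b n z

lemma tm_mod (x : Finset ℕ × Finset (ℕ × ι) × Finset (ℕ × ι)) (c : ℕ) :
    tm a b x (c % ∏ p ∈ pr x, p) = tm a b x c := by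
  have h : ∀ (I : Finset ι), ∀ p ∈ pr x, ev a b I p (c % ∏ p ∈ pr x, p) = ev a b I p c :=
    fun I p hp => ev_of_modEq I ((Nat.mod_modEq c _).of_dvd (dvd_prod_of_mem _ hp))
  unfold tm BB
  rw [prod_congr rfl fun p hp => h univ p (mem_union_left _ hp),
    prod_congr rfl fun (z : ℕ × ι) hz => h {z.2} z.1 (mem_union_right _ (mem_image_of_mem _ hz))]

lemma tm_le (x : Finset ℕ × Finset (ℕ × ι) × Finset (ℕ × ι)) (c : ℕ) :
    |tm a b x c| ≤ ∏ p ∈ pr x, ev a b univ p c := by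
  by_cases h : tm a b x c = 0
  · rw [h, abs_zero]; exact prod_nonneg fun p _ => ev_nonneg _ _ _
  have h1 := prod_ne_zero_iff.1 (left_ne_zero_of_mul h)
  have h2 := prod_ne_zero_iff.1 (right_ne_zero_of_mul h)
  have e1 : ∏ p ∈ x.1, ev a b univ p c = 1 :=
    prod_eq_one fun p hp => (ev_01 _ _ _).resolve_left (h1 p hp)
  have e2 : ∏ z ∈ x.2.1 ∪ x.2.2, BB a b c z = 1 :=
    prod_eq_one fun z hz => (BB_01 _ _).resolve_left (h2 z hz)
  rw [tm, e1, e2, mul_one, abs_one, prod_eq_one]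
  intro p hp
  rcases mem_union.1 hp with hp | hp
  · exact (ev_01 _ _ _).resolve_left (h1 p hp)
  · obtain ⟨z, hz, rfl⟩ := mem_image.1 hp
    obtain ⟨l, -, hl⟩ := ev_eq_one.1 ((BB_01 c z).resolve_left (h2 z hz))
    exact ev_eq_one.2 ⟨l, mem_univ _, hl⟩

lemma fib_card (s : Finset (Finset ℕ × Finset (ℕ × ι) × Finset (ℕ × ι))) (Q : Finset ℕ) :
    (s.filter fun x => pr x = Q).card ≤ (2 ^ (2 * Fintype.card ι + 1)) ^ Q.card := by
  calc _ ≤ (Q.powerset ×ˢ (Q ×ˢ (univ : Finset ι)).powerset ×ˢ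
        (Q ×ˢ (univ : Finset ι)).powerset).card := by
        refine card_le_card fun x hx => ?_
        have h := (mem_filter.1 hx).2
        simp only [mem_product, mem_powerset]
        refine ⟨h ▸ subset_union_left, fun z hz => ?_, fun z hz => ?_⟩
        · exact mem_product.2 ⟨h ▸ mem_union_right _ (mem_image_of_mem _ (mem_union_left _ hz)),
            mem_univ _⟩
        · exact mem_product.2 ⟨h ▸ mem_union_right _ (mem_image_of_mem _ (mem_union_right _ hz)),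
            mem_univ _⟩
    _ = _ := by
        simp only [card_product, card_powerset, card_univ]
        rw [← pow_add, ← pow_add, ← pow_mul]; congr 1; ring

lemma prod_image_le (W : Finset (ℕ × ι)) (hW : ∀ x ∈ W, 2 ≤ x.1) :
    ∏ p ∈ W.image Prod.fst, p ≤ dd Prod.fst W := by
  unfold dd
  rw [← prod_fiberwise_of_maps_to (g := Prod.fst) (t := W.image Prod.fst)
    fun x hx => mem_image_of_mem _ hx]
  refine prod_le_prod' fun p hp => ?_
  obtain ⟨x, hx, rfl⟩ := mem_image.1 hp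
  exact single_le_prod' (f := Prod.fst) (s := W.filter fun z => z.1 = x.1)
    (fun z hz => by have := hW z (mem_filter.1 hz).1; omega) (mem_filter.2 ⟨hx, rfl⟩)

lemma prod_union_le' (S T : Finset ℕ) (hS : ∀ p ∈ S, 1 ≤ p) :
    ∏ p ∈ S ∪ T, p ≤ (∏ p ∈ S, p) * ∏ p ∈ T, p := by
  rw [← prod_union_inter]
  exact Nat.le_mul_of_pos_right _ (prod_pos fun p hp => hS p (mem_inter.1 hp).1)

theorem transfer {Ω Ω' : Finset ℕ} {μ μ' : ℕ → ℝ} {P P1 : Finset ℕ} (hP : ∀ p ∈ P, GoodP a b p)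
    (hP1 : P1 ⊆ P) {Lvl D1 Z : ℕ} {κ ε : ℝ} (s : SieveW P1 D1 κ ε) {E : Finset ℕ → ℝ}
    (hE0 : ∀ T, 0 ≤ E T)
    (hE : ∀ T ∈ lev P Lvl, ∀ c, |∑ n ∈ Ω, μ n * (if n ≡ c [MOD ∏ p ∈ T, p] then 1 else 0) -
      ∑ n ∈ Ω', μ' n * (if n ≡ c [MOD ∏ p ∈ T, p] then 1 else 0)| ≤ E T)
    {A : Finset (ℕ × ι)} (hA : ∀ x ∈ A, x.1 ∈ P) {y : Finset (ℕ × ι) → ℝ} {Yb : ℝ}
    (hy : ∀ U ⊆ A, |y U| ≤ Yb) (hyZ : ∀ U ⊆ A, y U ≠ 0 → dd Prod.fst U ≤ Z)
    (hL : D1 * Z ^ 2 ≤ Lvl) :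
    |∑ n ∈ Ω, μ n * (s.U (fun p => ev a b univ p n) * FF Prod.fst A y (BB a b n) ^ 2) -
      ∑ n ∈ Ω', μ' n * (s.U (fun p => ev a b univ p n) * FF Prod.fst A y (BB a b n) ^ 2)| ≤
      (Yb * TT Prod.fst A) ^ 2 * ∑ T ∈ lev P Lvl,
        ((Fintype.card ι * 2 ^ (2 * Fintype.card ι + 1) : ℕ) : ℝ) ^ T.card * E T := by
  classical
  have hA2 : ∀ x ∈ A, 2 ≤ x.1 := fun x hx => (hP _ (hA x hx)).prime.two_le
  set 𝓘 := P1.powerset ×ˢ A.powerset ×ˢ A.powerset with h𝓘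
  set co : Finset ℕ × Finset (ℕ × ι) × Finset (ℕ × ι) → ℝ := fun x =>
    s.up x.1 * (lam Prod.fst A y x.2.1 * lam Prod.fst A y x.2.2) with hco
  have e1 : ∀ n, s.U (fun p => ev a b univ p n) * FF Prod.fst A y (BB a b n) ^ 2 =
      ∑ x ∈ 𝓘, co x * tm a b x n := by
    intro n
    rw [FF_sq A y (BB_01 n), SieveW.U, sum_mul, h𝓘, sum_product]
    refine sum_congr rfl fun T _ => ?_
    rw [sum_product, mul_sum]
    refine sum_congr rfl fun S _ => ?_
    rw [mul_sum]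
    exact sum_congr rfl fun S' _ => by simp only [hco, tm]; ring
  have e2 : ∀ (Ω : Finset ℕ) (μ : ℕ → ℝ), ∑ n ∈ Ω, μ n * ∑ x ∈ 𝓘, co x * tm a b x n =
      ∑ x ∈ 𝓘, co x * ∑ n ∈ Ω, μ n * tm a b x n := by
    intro Ω μ
    simp_rw [mul_sum]
    rw [sum_comm]
    exact sum_congr rfl fun x _ => sum_congr rfl fun n _ => by ring
  simp_rw [e1]
  rw [e2, e2, ← sum_sub_distrib]
  have hΛ : 0 ≤ Yb * TT Prod.fst A :=
    (abs_nonneg _).trans (abs_lam_le hA2 hy (empty_subset _))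
  set g : Finset ℕ → ℝ := fun Q => (Yb * TT Prod.fst A) ^ 2 * ((Fintype.card ι : ℝ) ^ Q.card * E Q)
    with hg
  have hg0 : ∀ Q, 0 ≤ g Q := fun Q => by have := hE0 Q; simp only [hg]; positivity
  calc _ ≤ ∑ x ∈ 𝓘, if pr x ∈ lev P Lvl then g (pr x) else 0 := by
        refine (abs_sum_le_sum_abs _ _).trans (sum_le_sum fun x hx => ?_)
        simp only [h𝓘, mem_product, mem_powerset] at hx
        rw [← mul_sub, abs_mul]
        by_cases h0 : co x = 0
        · rw [h0, abs_zero, zero_mul]; split_ifs; exacts [hg0 _, le_rfl]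
        have h1 := s.supp_up _ hx.1 (left_ne_zero_of_mul h0)
        have h2 := lam_supp hA2 hyZ (left_ne_zero_of_mul (right_ne_zero_of_mul h0))
        have h3 := lam_supp hA2 hyZ (right_ne_zero_of_mul (right_ne_zero_of_mul h0))
        have hsub : pr x ⊆ P := union_subset (hx.1.trans hP1) fun p hp => by
          obtain ⟨z, hz, rfl⟩ := mem_image.1 hp
          exact hA z (union_subset hx.2.1 hx.2.2 hz)
        have hlev : pr x ∈ lev P Lvl := by
          refine mem_filter.2 ⟨mem_powerset.2 hsub, ?_⟩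
          refine (prod_union_le' _ _ fun p hp => (hP p (hP1 (hx.1 hp))).prime.one_le).trans
            (le_trans (Nat.mul_le_mul h1 ?_) hL)
          refine (prod_image_le _ fun z hz => hA2 z (union_subset hx.2.1 hx.2.2 hz)).trans
            ((dd_union_le _ fun z hz => hA2 z (hx.2.1 hz)).trans ?_)
          rw [sq]; exact Nat.mul_le_mul h2 h3
        rw [if_pos hlev]
        refine mul_le_mul ?_ (tr1 (fun p hp => hP p (hsub hp)) (hE _ hlev) _ (tm_mod x) (tm_le x))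
          (abs_nonneg _) (by positivity)
        simp only [hco, abs_mul]
        rw [sq]
        exact (mul_le_of_le_one_left (by positivity) (s.abs_up _)).trans
          (mul_le_mul (abs_lam_le hA2 hy hx.2.1) (abs_lam_le hA2 hy hx.2.2) (abs_nonneg _) hΛ)
    _ = ∑ Q ∈ lev P Lvl, ∑ x ∈ (𝓘.filter fun x => pr x ∈ lev P Lvl).filter (fun x => pr x = Q),
          g (pr x) := by
        rw [← sum_filter, sum_fiberwise_of_maps_to fun x hx => (mem_filter.1 hx).2]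
    _ ≤ _ := by
        rw [mul_sum]
        refine sum_le_sum fun Q _ => ?_
        rw [sum_congr rfl fun x hx => by rw [(mem_filter.1 hx).2], sum_const, nsmul_eq_mul]
        have h1 : ((((𝓘.filter fun x => pr x ∈ lev P Lvl).filter (fun x => pr x = Q)).card : ℕ) : ℝ) ≤
            ((2 ^ (2 * Fintype.card ι + 1)) ^ Q.card : ℕ) := by exact_mod_cast fib_card _ Q
        refine (mul_le_mul_of_nonneg_right h1 (hg0 Q)).trans (le_of_eq ?_)
        simp only [hg]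
        push_cast
        rw [mul_pow (Fintype.card ι : ℝ)]
        ring

end Mst

open Mst in
theorem pMst : S_Mst := by
  intro ι _ _ a b K v k w R Y D1 Z e Lvl Ω μ Γ I X ε Θ E s y hN hk hk3 hK hvw hw hwY hRY hΓ hI hX hε
    hΘ hsupp hE hE0 hy hyZ hZ hew hL
  classical
  have hP : ∀ p ∈ GP a Y, GoodP a b p := fun p hp => hN.good hp
  set f : ℕ → ℝ := fun p => 1 + Γ.card / ((p : ℝ) - Γ.card) with hf
  have hf3 : ∀ p ∈ GP a Y, |f p - 1| ≤ 3 / p := by
    intro p hp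
    have h1 := sub_pos' (hP p hp).prime hΓ
    have h2 : (2 : ℝ) ≤ p := by exact_mod_cast (hP p hp).prime.two_le
    have h3 : (Γ.card : ℝ) ≤ 1 := by exact_mod_cast hΓ
    have h4 : (0 : ℝ) ≤ Γ.card := Nat.cast_nonneg _
    simp only [hf, add_sub_cancel_left]
    rw [abs_of_nonneg (by positivity), div_le_div_iff₀ h1 (by linarith)]
    nlinarith
  have hu := fun p (hp : p ∈ GP a w) => hN.ee_univ hk hk3 hK (Γ := Γ) (f := f)
    (fun h q => by simp [hf, h]) hp (hf3 p (GP_mono a hwY hp))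
  have hm := (mm_HC hP hΓ X Lvl).master hP le_rfl hX (fun n _ => mm_nonneg hP hΓ hX n)
    (GP_mono a hwY) s hε (fun p hp => (hu p hp).2) (θ := fun n => s.U fun p => ev a b univ p n)
    (fun n => ⟨s.le_up _ fun p _ => ⟨ev_nonneg _ _ _, ev_le_one _ _ _⟩, le_rfl⟩) hw
    (fun p hp => (mem_GP.1 hp).1) (hN.PP_sub hvw le_rfl) hRY hI (I2 := ∅)
    (Or.inr (disjoint_empty_right _)) (disjoint_empty_right _)
    (fun p hp => hf3 p (hN.PP_sub hvw le_rfl hp))
    (fun p _ => by simp only [ee, disjoint_empty_right, if_true, card_empty, Nat.cast_zero, zero_mul]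
                   exact ⟨le_rfl, by positivity⟩)
    (c := fun T => if T = ∅ then 1 else 0) (D2 := 1) (fun T => by split_ifs <;> simp)
    (fun T _ h => by
      have : T = ∅ := by by_contra h1; exact h (if_neg h1)
      simp [this]) hy hyZ hZ hew (by simpa using hL)
  simp only [th2_empty, mul_one, zero_mul, mul_zero, add_zero] at hm
  have e1 : ∏ p ∈ GP a w, (1 - ee Γ f univ p) =
      (∏ p ∈ GP a w, (p : ℝ) / (p - Γ.card)) * Vk a w := by
    rw [Vk, hk, ← prod_mul_distrib]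
    refine prod_congr rfl fun p hp => ?_
    have h1 := sub_pos' (hP p (GP_mono a hwY hp)).prime hΓ
    rw [(hu p hp).1]
    congr 1
    simp only [hf]
    field_simp
    ring
  have h0 : 0 ≤ X * (∏ p ∈ GP a w, (p : ℝ) / (p - Γ.card)) * Vk a w := by
    rw [mul_assoc, ← e1]; exact mul_nonneg hX (prod_nonneg fun p hp => by linarith [(hu p hp).2.2.2])
  rw [e1, ← mul_assoc X] at hm
  have hRP : PP w R ⊆ GP a Y := hN.PP_sub hvw hRY
  have ht := transfer (Ω := Ω) (μ := μ) (Ω' := range (∏ p ∈ GP a Y, p))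
    (μ' := mm a b (GP a Y) Γ X) hP (GP_mono a hwY) s hE0 (fun T hT c => by
      have hT' : T ⊆ GP a Y := mem_powerset.1 (mem_filter.1 hT).1
      rw [mm_class hP hΓ X hT' c]
      by_cases hc : ∀ p ∈ T, ∀ l ∈ Γ, ¬ p ∣ a l * c + b l
      · refine le_trans (le_of_eq ?_) (hE T hT c hc)
        congr 3
        refine prod_congr rfl fun p hp => ?_
        have h1 := sub_pos' (hP p (hT' hp)).prime hΓ
        have h2 : (p : ℝ) ≠ 0 := by exact_mod_cast (hP p (hT' hp)).prime.ne_zero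
        rw [ev_eq_zero.2 (hc p hp)]
        field_simp
        ring
      · push Not at hc
        obtain ⟨p, hp, l, hl, hd⟩ := hc
        rw [prod_eq_zero (f := fun p : ℕ => (1 - ev a b Γ p c) / ((p : ℝ) - Γ.card)) hp
          (by rw [ev_eq_one.2 ⟨l, hl, hd⟩]; simp), sum_eq_zero, mul_zero, sub_zero, abs_zero]
        · exact hE0 T
        · intro n hn
          by_cases h1 : μ n = 0
          · rw [h1, zero_mul]
          rw [if_neg, mul_zero]
          intro h2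
          refine hsupp n hn h1 p (hT' hp) l hl ?_
          have h3 : a l * n + b l ≡ a l * c + b l [MOD p] :=
            ((h2.of_dvd (dvd_prod_of_mem _ hp)).mul_left _).add_right _
          exact (h3.dvd_iff dvd_rfl).2 hd)
    (A := AA w R I) (fun x hx => hRP (mem_product.1 hx).1) hy hyZ hL
  rw [TT_AA, hk] at ht
  simp only [mul_assoc (mm a b (GP a Y) Γ X _)] at hm
  have t1 := one_le_Th w R
  have t2 := one_le_Th w Y
  have t3 : Th w R ≤ Θ := by
    refine le_trans ?_ hΘ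
    rcases le_total w R with h1 | h1
    · unfold Th; rw [prod_PP_split h1 hRY]; exact le_mul_of_one_le_right (by
        linarith [one_le_Th w R, show Th w R = ∏ p ∈ PP w R, (1 - 1 / (p : ℝ))⁻¹ from rfl])
        (one_le_Th R Y)
    · have : PP w R = ∅ := by unfold PP; rw [Ioc_eq_empty (by omega)]; rfl
      rw [Th, this, prod_empty]; exact t2
  have t4 : 1 ≤ Θ := t1.trans t3
  have hIk : I.card ≤ k := hk ▸ card_le_univ I
  have t5 : Th w R ^ I.card ≤ Θ ^ k :=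
    (pow_le_pow_left₀ (by linarith) t3 _).trans (pow_le_pow_right₀ t4 hIk)
  have hIk' : (I.card : ℝ) ≤ k := by exact_mod_cast hIk
  have t6 : 0 ≤ ∑ T ∈ lev (GP a Y) Lvl, ((k * 2 ^ (2 * k + 1) : ℕ) : ℝ) ^ T.card * E T :=
    sum_nonneg fun T _ => mul_nonneg (by positivity) (hE0 T)
  refine (abs_sub_le _ _ _).trans ((add_le_add ht hm).trans ?_)
  rw [mul_add (Θ ^ (5 * k + 8)), add_comm]
  refine add_le_add ?_ (mul_le_mul_of_nonneg_right ?_ t6)
  · calc _ ≤ (Θ ^ 2) ^ 2 * (Θ ^ k) ^ 5 * (X * (∏ p ∈ GP a w, (p : ℝ) / (p - Γ.card)) * Vk a w *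
          Θ ^ 4 * (3 * ε + 10 * e / w + 20 * (k : ℝ) ^ 2 / w)) := by gcongr
      _ = _ := by ring
  · calc _ ≤ (Θ ^ 2 * Θ ^ k) ^ 2 := by gcongr
      _ = Θ ^ (2 * k + 4) := by ring
      _ ≤ _ := pow_le_pow_right₀ t4 (by omega)

end Pool.Agent.P.MP_746f10_nt.Cel
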