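import Pool.Agent.P.MP_746f10_nt.Cel.Defs

/-! The pigeonhole reduction: boxes in dense sets and the cell theorem give the final statement. -/

namespace Pool.Agent.P.MP_746f10_nt.Cel

open Finset

namespace Red

/-- a linear form without fixed divisor `p` has at most one root below `p` -/
theorem root_le {p a b : ℕ} (hp : p.Prime) (h : ∃ n, ¬ p ∣ a * n + b) :
    ((range p).filter fun n => p ∣ a * n + b).card ≤ 1 := by
  rw [card_le_one]
  intro n1 h1 n2 h2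
  rw [mem_filter, mem_range] at h1 h2
  have ha : ¬ p ∣ a := by
    intro ha
    obtain ⟨n, hn⟩ := h
    have hb : p ∣ b := (Nat.dvd_add_right (Dvd.dvd.mul_right ha n1)).1 h1.2
    exact hn (Nat.dvd_add (Dvd.dvd.mul_right ha n) hb)
  have e : a * n1 + b ≡ a * n2 + b [MOD p] :=
    ((Nat.modEq_zero_iff_dvd).2 h1.2).trans ((Nat.modEq_zero_iff_dvd).2 h2.2).symm
  have e2 : a * n1 ≡ a * n2 [MOD p] := Nat.ModEq.add_right_cancel' b e
  have e3 : n1 ≡ n2 [MOD p] :=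
    Nat.ModEq.cancel_left_of_coprime ((Nat.Prime.coprime_iff_not_dvd hp).2 ha) e2
  exact Nat.ModEq.eq_of_lt_of_lt e3 h1.1 h2.1

/-- large primes are harmless -/
theorem adm_large {ι : Type} [Fintype ι] (a b : ι → ℕ) {p : ℕ} (hp : p.Prime)
    (hc : Fintype.card ι < p) (h : ∀ l, ∃ n, ¬ p ∣ a l * n + b l) :
    ∃ n, ∀ l, ¬ p ∣ a l * n + b l := by
  classical
  have h1 : (univ.biUnion fun l => (range p).filter fun n => p ∣ a l * n + b l).card <
      (range p).card := by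
    refine lt_of_le_of_lt card_biUnion_le ?_
    rw [card_range]
    refine lt_of_le_of_lt (sum_le_sum fun l _ => root_le hp (h l)) ?_
    simpa using hc
  obtain ⟨n, hn, hn2⟩ := exists_mem_notMem_of_card_lt_card h1
  refine ⟨n, fun l hl => hn2 ?_⟩
  rw [mem_biUnion]
  exact ⟨l, mem_univ _, mem_filter.2 ⟨hn, hl⟩⟩

/-- infinite pigeonhole on the choice of cells and of forms in the cells -/
theorem pick {m M K : ℕ} (hK : 0 < K) (a b : Fin M × Fin K → ℕ)
    (h : ∀ N, ∃ n, N ≤ n ∧ Many m a b n) :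
    ∃ (I : Finset (Fin M)) (σ : Fin M → Fin K), I.card = m + 1 ∧
      Set.Infinite {n : ℕ | ∀ i ∈ I, (a (i, σ i) * n + b (i, σ i)).Prime} := by
  classical
  by_contra hc
  have hf : ∀ q : Finset (Fin M) × (Fin M → Fin K), Set.Finite
      {n : ℕ | q.1.card = m + 1 ∧ ∀ i ∈ q.1, (a (i, q.2 i) * n + b (i, q.2 i)).Prime} := by
    intro q
    by_cases hq : q.1.card = m + 1
    · by_contra hi
      refine hc ⟨q.1, q.2, hq, fun hfin => hi (hfin.subset fun n hn => hn.2)⟩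
    · exact Set.finite_empty.subset fun n hn => (hq hn.1).elim
  obtain ⟨B, hB⟩ := (Set.finite_iUnion hf).bddAbove
  obtain ⟨n, hn, I, hI, hp⟩ := h (B + 1)
  obtain ⟨I', hI', hcard⟩ := exists_subset_card_eq (show m + 1 ≤ I.card from hI)
  have hs : ∀ i : Fin M, ∃ s : Fin K, i ∈ I → (a (i, s) * n + b (i, s)).Prime := by
    intro i
    by_cases hi : i ∈ I
    · obtain ⟨s, hs⟩ := hp i hi
      exact ⟨s, fun _ => hs⟩
    · exact ⟨⟨0, hK⟩, fun h => (hi h).elim⟩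
  choose σ hσ using hs
  have : n ≤ B := hB (Set.mem_iUnion.2 ⟨(I', σ), hcard, fun i hi => hσ i (hI' hi)⟩)
  omega

end Red

theorem pRed (h1 : S_Box) (h2 : S_Cell) : S_Main := by
  classical
  intro m
  obtain ⟨K0, hK0, hcell⟩ := h2 m
  obtain ⟨C, c, hC, hc, hbox⟩ := h1 (4 * m + 1) K0
  set W : ℕ := ((4 * m + 1) * K0).factorial with hW
  have hWpos : 0 < W := Nat.factorial_pos _
  refine ⟨((W * W : ℕ) : ℝ) ^ (4 * m + 1) * C, c, by positivity, hc, ?_⟩
  intro K F hK hF hpos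
  set bad : (Fin (4 * m + 1) → ℕ × ℕ) → Prop := fun t =>
    (∀ p : ℕ, p.Prime → ∃ n : ℕ, ∀ i, ¬ p ∣ (t i).1 * n + (t i).2) ∧
      ¬ ∃ I : Finset (Fin (4 * m + 1)), I.card = m + 1 ∧ Set.InjOn t I ∧
        Set.Infinite {n : ℕ | ∀ i ∈ I, ((t i).1 * n + (t i).2).Prime} with hbad
  set E : Finset (Fin (4 * m + 1) → ℕ × ℕ) := (Fintype.piFinset F).filter bad with hE
  have hset : {t : Fin (4 * m + 1) → ℕ × ℕ | (∀ i, t i ∈ F i) ∧ bad t} = (E : Set _) := by
    ext t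
    simp only [hE, Set.mem_ofPred_eq, coe_filter, Fintype.mem_piFinset]
  change (Set.ncard {t : Fin (4 * m + 1) → ℕ × ℕ | (∀ i, t i ∈ F i) ∧ bad t} : ℝ) ≤ _
  rw [hset, Set.ncard_coe_finset]
  by_contra hlt
  rw [not_le] at hlt
  set f : (Fin (4 * m + 1) → ℕ × ℕ) → Fin (4 * m + 1) → ℕ × ℕ :=
    fun t i => ((t i).1 % W, (t i).2 % W) with hf
  set T : Finset (Fin (4 * m + 1) → ℕ × ℕ) := Fintype.piFinset fun _ => range W ×ˢ range W with hT
  have hmap : ∀ t ∈ E, f t ∈ T := by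
    intro t _
    simp only [hT, hf, Fintype.mem_piFinset, mem_product, mem_range]
    exact fun i => ⟨Nat.mod_lt _ hWpos, Nat.mod_lt _ hWpos⟩
  have hTc : T.card = (W * W) ^ (4 * m + 1) := by
    simp [hT, Fintype.card_piFinset]
  have hlt2 : T.card • (C * (K : ℝ) ^ (-c) * ∏ i, ((F i).card : ℝ)) < (E.card : ℝ) := by
    rw [hTc, nsmul_eq_mul]
    refine lt_of_eq_of_lt ?_ hlt
    push_cast
    ring
  obtain ⟨y, -, hy⟩ := exists_lt_card_fiber_of_nsmul_lt_card_of_maps_to hmap hlt2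
  obtain ⟨x, hx, hσ⟩ := hbox (ℕ × ℕ) F (E.filter fun t => f t = y) K hK hF
    (fun t ht i => Fintype.mem_piFinset.1 (mem_filter.1 (mem_filter.1 ht).1).1 i) hy
  have hxF : ∀ σ : Fin (4 * m + 1) → Fin K0, ∀ i, x (i, σ i) ∈ F i := fun σ i =>
    Fintype.mem_piFinset.1 (mem_filter.1 (mem_filter.1 (hσ σ)).1).1 i
  have hxb : ∀ σ : Fin (4 * m + 1) → Fin K0, bad fun i => x (i, σ i) := fun σ =>
    (mem_filter.1 (mem_filter.1 (hσ σ)).1).2
  have hxy : ∀ i s, ((x (i, s)).1 % W, (x (i, s)).2 % W) = y i := fun i s =>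
    congrFun (mem_filter.1 (hσ fun _ => s)).2 i
  have hadm : Adm (fun l => (x l).1) fun l => (x l).2 := by
    intro p hp
    by_cases hpr : p ≤ (4 * m + 1) * K0
    · have hpW : p ∣ W := Nat.dvd_factorial hp.pos hpr
      obtain ⟨n, hn⟩ := (hxb fun _ => ⟨0, hK0⟩).1 p hp
      refine ⟨n, fun l hl => hn l.1 ?_⟩
      have e := (hxy l.1 l.2).trans (hxy l.1 ⟨0, hK0⟩).symm
      have e1 : (x l).1 ≡ (x (l.1, ⟨0, hK0⟩)).1 [MOD p] :=
        Nat.ModEq.of_dvd hpW (congrArg Prod.fst e)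
      have e2 : (x l).2 ≡ (x (l.1, ⟨0, hK0⟩)).2 [MOD p] :=
        Nat.ModEq.of_dvd hpW (congrArg Prod.snd e)
      exact (((e1.mul_right n).add e2).dvd_iff dvd_rfl).1 hl
    · refine Red.adm_large _ _ hp (by simpa using hpr) fun l => ?_
      obtain ⟨n, hn⟩ := (hxb fun _ => l.2).1 p hp
      exact ⟨n, hn l.1⟩
  obtain ⟨I, σ, hI, hinf⟩ := Red.pick hK0 _ _
    (hcell (fun l => (x l).1) (fun l => (x l).2) (fun l => hpos l.1 _ (hxF (fun _ => l.2) l.1))
      hadm hx)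
  exact (hxb σ).2 ⟨I, hI, fun i _ j _ h => congrArg Prod.fst (hx h), hinf⟩

end Pool.Agent.P.MP_746f10_nt.Cel
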