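import Pool.Agent.P.MP_746f10_nt.Cel.Box
import Pool.Agent.P.MP_746f10_nt.Cel.Red
import Pool.Agent.P.MP_746f10_nt.Cel.Norm
import Pool.Agent.P.MP_746f10_nt.Cel.Err
import Pool.Agent.P.MP_746f10_nt.Cel.JJP
import Pool.Agent.P.MP_746f10_nt.Cel.Abs
import Pool.Agent.P.MP_746f10_nt.Cel.Mst
import Pool.Agent.P.MP_746f10_nt.Cel.Fin
import Pool.Agent.P.MP_0ad054_nt.An.All

/-! Assembly. -/

namespace Pool.Agent.P.MP_746f10_nt.Cel

theorem cell_all : S_Cell :=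
  pNorm (pCellN (pErr pErr0 Pool.Agent.P.MP_0ad054_nt.An.bv_all) pErr0 pJJ pPair pAbs pMst)

theorem main_all : S_Main := pRed pBox cell_all

end Pool.Agent.P.MP_746f10_nt.Cel
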