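import Pool.Agent.P.MP_746f10_nt.Cel.Defs

/-! A dense subset of a product of finite sets contains a box with distinct entries. -/

namespace Pool.Agent.P.MP_746f10_nt.Cel

open Finset

namespace Box

theorem key (C' c' : ℝ) (hC : 0 < C') (hc : 0 < c') (m : ℕ) :
    ∃ C c : ℝ, 0 < C ∧ 0 < c ∧ ∀ n : ℕ, 1 ≤ n →
      C' * (n : ℝ) ^ (-c') + m / n ≤ (C * (n : ℝ) ^ (-c)) ^ 2 := by
  refine ⟨C' + m + 1, min c' 1 / 2, by positivity, by positivity, fun n hn => ?_⟩
  have h1 : (1 : ℝ) ≤ n := by exact_mod_cast hn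
  have h0 : (0 : ℝ) < n := by linarith
  have e : ((n : ℝ) ^ (-(min c' 1 / 2))) ^ 2 = (n : ℝ) ^ (-(min c' 1)) := by
    rw [← Real.rpow_natCast, ← Real.rpow_mul h0.le]
    congr 1
    push_cast
    ring
  rw [mul_pow, e]
  have a1 : (n : ℝ) ^ (-c') ≤ (n : ℝ) ^ (-(min c' 1)) :=
    Real.rpow_le_rpow_of_exponent_le h1 (by simp)
  have a2 : (1 : ℝ) / n ≤ (n : ℝ) ^ (-(min c' 1)) := by
    rw [one_div, ← Real.rpow_neg_one]
    exact Real.rpow_le_rpow_of_exponent_le h1 (by simp)
  have hp : 0 < (n : ℝ) ^ (-(min c' 1)) := Real.rpow_pos_of_pos h0 _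
  have hm : (0 : ℝ) ≤ m := by positivity
  have a3 : (m : ℝ) / n ≤ m * (n : ℝ) ^ (-(min c' 1)) := by
    rw [div_eq_mul_one_div]
    exact mul_le_mul_of_nonneg_left a2 hm
  have a4 : C' * (n : ℝ) ^ (-c') ≤ C' * (n : ℝ) ^ (-(min c' 1)) :=
    mul_le_mul_of_nonneg_left a1 hC.le
  have a5 : C' + m ≤ (C' + m + 1) ^ 2 := by nlinarith
  nlinarith [mul_le_mul_of_nonneg_right a5 hp.le]

open Classical in
/-- the number of points of `A` related to `w` -/
noncomputable def deg {α β : Type} (A : Finset α) (R : α → β → Prop) (w : β) : ℝ :=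
  ∑ a ∈ A, if R a w then 1 else 0

open Classical in
theorem deg_eq {α β : Type} (A : Finset α) (R : α → β → Prop) (w : β) :
    deg A R w = ((A.filter fun a => R a w).card : ℝ) := by
  unfold deg
  rw [sum_boole]

theorem deg_nonneg {α β : Type} (A : Finset α) (R : α → β → Prop) (w : β) : 0 ≤ deg A R w := by
  unfold deg
  exact sum_nonneg fun a _ => by split_ifs <;> norm_num

theorem deg_le {α β : Type} (A : Finset α) (R : α → β → Prop) (w : β) :
    deg A R w ≤ A.card := by
  unfold deg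
  calc _ ≤ ∑ _a ∈ A, (1 : ℝ) := sum_le_sum fun a _ => by split_ifs <;> norm_num
    _ = _ := by simp

theorem sum_deg_le {α β : Type} (A : Finset α) (R : α → β → Prop) (S : Finset β) :
    ∑ w ∈ S, deg A R w ≤ A.card * S.card := by
  calc _ ≤ ∑ _w ∈ S, (A.card : ℝ) := sum_le_sum fun w _ => deg_le A R w
    _ = _ := by simp [mul_comm]

open Classical in
theorem step {α β : Type} (A B : Finset α) (Ω S : Finset β) (R : α → β → Prop) (hS : S ⊆ Ω)
    (δ δ' : ℝ) (hδ : 0 ≤ δ) (hδ' : 0 ≤ δ') (m n : ℕ) (hn : 1 ≤ n) (hA : n ≤ A.card)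
    (hB : B.card ≤ m) (h : δ' + m / n ≤ δ ^ 2)
    (hd : δ * A.card * Ω.card < ∑ w ∈ S, deg A R w) :
    ∃ y, y ∉ B ∧ δ' * A.card * Ω.card < ∑ w ∈ S.filter (R y), deg A R w := by
  by_contra hcon
  push Not at hcon
  have hn0 : (0 : ℝ) < n := by exact_mod_cast hn
  have hA1 : (n : ℝ) ≤ A.card := by exact_mod_cast hA
  have hA0 : (0 : ℝ) < A.card := by linarith
  have hSΩ : (S.card : ℝ) ≤ Ω.card := by exact_mod_cast card_le_card hS
  have hΩ0 : (0 : ℝ) ≤ Ω.card := by positivity
  have hB1 : (B.card : ℝ) ≤ m := by exact_mod_cast hB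
  have e1 : ∑ y ∈ A, ∑ w ∈ S.filter (R y), deg A R w = ∑ w ∈ S, deg A R w ^ 2 := by
    simp_rw [sum_filter]
    rw [sum_comm]
    refine sum_congr rfl fun w _ => ?_
    rw [sq]
    conv_rhs => rw [deg, sum_mul]
    refine sum_congr rfl fun y _ => ?_
    split_ifs <;> simp [deg]
  have e2 : ∑ y ∈ A, ∑ w ∈ S.filter (R y), deg A R w ≤
      A.card * (δ' * A.card * Ω.card) + m * (A.card * Ω.card) := by
    calc _ ≤ ∑ y ∈ A, (δ' * A.card * Ω.card +
            if y ∈ B then (A.card : ℝ) * Ω.card else 0) := by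
          refine sum_le_sum fun y _ => ?_
          split_ifs with hy
          · have := sum_deg_le A R (S.filter (R y))
            have h2 : ((S.filter (R y)).card : ℝ) ≤ Ω.card := by
              exact_mod_cast card_le_card ((filter_subset _ _).trans hS)
            have h3 : 0 ≤ δ' * A.card * Ω.card := by positivity
            nlinarith
          · simpa using hcon y hy
      _ = A.card * (δ' * A.card * Ω.card) +
            ((A.filter (· ∈ B)).card : ℝ) * (A.card * Ω.card) := by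
          rw [sum_add_distrib, ← sum_filter]
          simp
      _ ≤ _ := by
          have h2 : ((A.filter (· ∈ B)).card : ℝ) ≤ B.card := by
            exact_mod_cast card_le_card fun y hy => (mem_filter.1 hy).2
          have h3 : (0 : ℝ) ≤ A.card * Ω.card := by positivity
          nlinarith
  have e3 : (∑ w ∈ S, deg A R w) ^ 2 ≤ S.card * ∑ w ∈ S, deg A R w ^ 2 :=
    sq_sum_le_card_mul_sum_sq
  have e4 : (δ * A.card * Ω.card) ^ 2 < (∑ w ∈ S, deg A R w) ^ 2 :=
    pow_lt_pow_left₀ hd (by positivity) (by norm_num)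
  have e5 : (m : ℝ) ≤ m / n * A.card := by
    rw [div_mul_eq_mul_div, le_div_iff₀ hn0]
    exact mul_le_mul_of_nonneg_left hA1 (by positivity)
  have e6 : ∑ w ∈ S, deg A R w ^ 2 ≤ δ ^ 2 * A.card ^ 2 * Ω.card := by
    rw [← e1]
    refine e2.trans ?_
    have h3 : (0 : ℝ) ≤ A.card * Ω.card := by positivity
    have h4 := mul_le_mul_of_nonneg_right e5 h3
    have h5 : (0 : ℝ) ≤ A.card ^ 2 * Ω.card := by positivity
    have h6 := mul_le_mul_of_nonneg_right h h5
    nlinarith
  have e7 : (S.card : ℝ) * ∑ w ∈ S, deg A R w ^ 2 ≤ Ω.card * (δ ^ 2 * A.card ^ 2 * Ω.card) :=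
    mul_le_mul hSΩ e6 (sum_nonneg fun w _ => sq_nonneg _) hΩ0
  nlinarith

theorem row (K : ℕ) : ∀ (m : ℕ) (C' c' : ℝ), 0 < C' → 0 < c' →
    ∃ C c : ℝ, 0 < C ∧ 0 < c ∧ ∀ (α β : Type) (A B : Finset α) (Ω S : Finset β)
      (R : α → β → Prop) (n : ℕ), S ⊆ Ω → 1 ≤ n → n ≤ A.card → B.card ≤ m →
      C * (n : ℝ) ^ (-c) * A.card * Ω.card < ∑ w ∈ S, deg A R w →
      ∃ (y : Fin K → α) (S' : Finset β), Function.Injective y ∧ (∀ s, y s ∉ B) ∧ S' ⊆ S ∧
        (∀ w ∈ S', ∀ s, R (y s) w) ∧ C' * (n : ℝ) ^ (-c') * Ω.card < S'.card := by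
  classical
  induction K with
  | zero =>
    intro m C' c' hC hc
    refine ⟨C', c', hC, hc, fun α β A B Ω S R n hS hn hA hB hd => ?_⟩
    refine ⟨Fin.elim0, S, fun s => s.elim0, fun s => s.elim0, Subset.rfl,
      fun w _ s => s.elim0, ?_⟩
    have hA0 : (0 : ℝ) < A.card := by exact_mod_cast (by omega : 0 < A.card)
    have h1 := hd.trans_le (sum_deg_le A R S)
    have h2 : (A.card : ℝ) * (C' * (n : ℝ) ^ (-c') * Ω.card) < A.card * S.card := by linarith
    exact lt_of_mul_lt_mul_left h2 hA0.le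
  | succ K ih =>
    intro m C' c' hC hc
    obtain ⟨C1, c1, hC1, hc1, h1⟩ := ih (m + 1) C' c' hC hc
    obtain ⟨C, c, hC2, hc2, h2⟩ := key C1 c1 hC1 hc1 m
    refine ⟨C, c, hC2, hc2, fun α β A B Ω S R n hS hn hA hB hd => ?_⟩
    obtain ⟨y0, hy0, hd1⟩ := step A B Ω S R hS (C * (n : ℝ) ^ (-c)) (C1 * (n : ℝ) ^ (-c1))
      (by positivity) (by positivity) m n hn hA hB (h2 n hn) hd
    obtain ⟨y, S', hy, hyB, hS', hR, hcard⟩ := h1 α β A (insert y0 B) Ω (S.filter (R y0)) R n
      ((filter_subset _ _).trans hS) hn hA ((card_insert_le _ _).trans (by omega)) hd1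
    refine ⟨Fin.cons y0 y, S', ?_, ?_, hS'.trans (filter_subset _ _), ?_, hcard⟩
    · rw [Fin.cons_injective_iff]
      refine ⟨?_, hy⟩
      rintro ⟨s, hs⟩
      exact hyB s (by simp [hs])
    · intro s
      refine Fin.cases ?_ (fun s => ?_) s
      · simpa using hy0
      · have := hyB s
        simp only [mem_insert, not_or] at this
        simpa using this.2
    · intro w hw s
      refine Fin.cases ?_ (fun s => ?_) s
      · simpa using (mem_filter.1 (hS' hw)).2
      · simpa using hR w hw s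

theorem card_le_sum_deg {α : Type} [DecidableEq α] {r : ℕ} (F : Fin (r + 1) → Finset α)
    (E : Finset (Fin (r + 1) → α)) (hE : ∀ t ∈ E, ∀ i, t i ∈ F i) :
    (E.card : ℝ) ≤ ∑ w ∈ Fintype.piFinset (fun i : Fin r => F i.succ),
      deg (F 0) (fun a (t : Fin r → α) => (Fin.cons a t : Fin (r + 1) → α) ∈ E) w := by
  classical
  rw [card_eq_sum_card_fiberwise (f := fun t : Fin (r + 1) → α => fun i : Fin r => t i.succ)
    (t := Fintype.piFinset (fun i : Fin r => F i.succ))
    (fun t ht => by simpa using fun i : Fin r => hE t ht i.succ)]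
  push_cast
  refine sum_le_sum fun w _ => ?_
  rw [deg_eq]
  refine Nat.cast_le.2 (card_le_card_of_injOn (fun t => t 0) ?_ ?_)
  · intro t ht
    have ht' := mem_filter.1 (mem_coe.1 ht)
    simp only [coe_filter, Set.mem_setOf_eq]
    refine ⟨hE t ht'.1 0, ?_⟩
    have : (Fin.cons (t 0) w : Fin (r + 1) → α) = t := by
      rw [← ht'.2]
      exact Fin.cons_self_tail t
    rw [this]
    exact ht'.1
  · intro t ht u hu htu
    have ht' := mem_filter.1 (mem_coe.1 ht)
    have hu' := mem_filter.1 (mem_coe.1 hu)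
    funext i
    refine Fin.cases htu (fun j => ?_) i
    exact (congrFun ht'.2 j).trans (congrFun hu'.2 j).symm

theorem main (r K : ℕ) : ∀ m : ℕ, ∃ C c : ℝ, 0 < C ∧ 0 < c ∧
    ∀ (α : Type) [DecidableEq α] (F : Fin r → Finset α) (E : Finset (Fin r → α)) (B : Finset α)
      (n : ℕ), B.card ≤ m → 1 ≤ n → (∀ i, n ≤ (F i).card) → (∀ t ∈ E, ∀ i, t i ∈ F i) →
      C * (n : ℝ) ^ (-c) * ∏ i, ((F i).card : ℝ) < E.card →
      ∃ x : Fin r × Fin K → α, Function.Injective x ∧ (∀ p, x p ∉ B) ∧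
        ∀ σ : Fin r → Fin K, (fun i => x (i, σ i)) ∈ E := by
  induction r with
  | zero =>
    intro m
    refine ⟨1, 1, one_pos, one_pos, fun α _ F E B n _ hn _ _ hd => ?_⟩
    have h0 : (0 : ℝ) < n := by exact_mod_cast hn
    have h1 : (0 : ℝ) < E.card := lt_of_le_of_lt (by positivity) hd
    obtain ⟨t, ht⟩ := card_pos.1 (by exact_mod_cast h1 : 0 < E.card)
    refine ⟨fun p => p.1.elim0, fun p => p.1.elim0, fun p => p.1.elim0, fun σ => ?_⟩
    rwa [Subsingleton.elim (fun i : Fin 0 => _) t]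
  | succ r ih =>
    intro m
    obtain ⟨C', c', hC', hc', h1⟩ := ih (m + K)
    obtain ⟨C, c, hC, hc, h2⟩ := row K m C' c' hC' hc'
    refine ⟨C, c, hC, hc, fun α _ F E B n hB hn hF hE hd => ?_⟩
    have hΩ : ((Fintype.piFinset (fun i : Fin r => F i.succ)).card : ℝ) =
        ∏ i : Fin r, ((F i.succ).card : ℝ) := by
      rw [Fintype.card_piFinset]
      push_cast
      rfl
    obtain ⟨y, S', hy, hyB, hS', hR, hcard⟩ := h2 α (Fin r → α) (F 0) B
      (Fintype.piFinset (fun i : Fin r => F i.succ)) (Fintype.piFinset (fun i : Fin r => F i.succ))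
      (fun a (t : Fin r → α) => (Fin.cons a t : Fin (r + 1) → α) ∈ E) n Subset.rfl hn (hF 0) hB
      (by
        refine lt_of_lt_of_le ?_ (card_le_sum_deg F E hE)
        rw [hΩ, mul_assoc, ← Fin.prod_univ_succ (fun i => ((F i).card : ℝ))]
        exact hd)
    obtain ⟨x, hx, hxB, hxE⟩ := h1 α (fun i => F i.succ) S' (B ∪ univ.image y) n
      ((card_union_le _ _).trans (Nat.add_le_add hB (card_image_le.trans (by simp)))) hn
      (fun i => hF i.succ) (fun t ht i => Fintype.mem_piFinset.1 (hS' ht) i)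
      (by rw [← hΩ]; exact hcard)
    have hne : ∀ s p, y s ≠ x p := fun s p h => hxB p (by simp [← h])
    refine ⟨fun p => (Fin.cons (y p.2) (fun j => x (j, p.2)) : Fin (r + 1) → α) p.1, ?_, ?_, ?_⟩
    · rintro ⟨i, s⟩ ⟨j, u⟩
      refine Fin.cases ?_ (fun i => ?_) i <;> refine Fin.cases ?_ (fun j => ?_) j <;> intro h
      · simp only [Fin.cons_zero] at h
        rw [hy h]
      · simp only [Fin.cons_zero, Fin.cons_succ] at h
        exact absurd h (hne _ _)
      · simp only [Fin.cons_zero, Fin.cons_succ] at h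
        exact absurd h.symm (hne _ _)
      · simp only [Fin.cons_succ] at h
        have := hx h
        simp only [Prod.mk.injEq] at this
        rw [this.1, this.2]
    · rintro ⟨i, s⟩
      refine Fin.cases ?_ (fun i => ?_) i
      · simpa using hyB s
      · have := hxB (i, s)
        simp only [mem_union, not_or] at this
        simpa using this.1
    · intro σ
      have h := hR _ (hxE fun j => σ j.succ) (σ 0)
      have e : (fun i => (Fin.cons (y (σ i)) (fun j => x (j, σ i)) : Fin (r + 1) → α) i) =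
          (Fin.cons (y (σ 0)) (fun j => x (j, σ j.succ)) : Fin (r + 1) → α) := by
        funext i
        refine Fin.cases ?_ (fun i => ?_) i <;> simp
      simp only
      rw [e]
      exact h

end Box

theorem pBox : S_Box := by
  intro r K
  obtain ⟨C, c, hC, hc, h⟩ := Box.main r K 0
  refine ⟨C, c, hC, hc, fun α _ F E n hn hF hE hd => ?_⟩
  obtain ⟨x, hx, _, hxE⟩ := h α F E ∅ n (by simp) hn hF hE hd
  exact ⟨x, hx, hxE⟩

end Pool.Agent.P.MP_746f10_nt.Cel
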