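import Pool.Agent.P.MP_746f10_nt.Cel.Defs

/-! The three sieve sums at a fixed scale. -/

set_option linter.unusedSectionVars false

namespace Pool.Agent.P.MP_746f10_nt.Cel

open Finset

variable {ι : Type} [Fintype ι] [DecidableEq ι]

/-- the constant in the weights of the remainder -/
noncomputable abbrev zc (k : ℕ) : ℝ := ((k * 2 ^ (2 * k + 1) : ℕ) : ℝ)

/-- the hypotheses at a fixed scale -/
structure Sc (a b : ι → ℕ) (K0 v k w s M1 e1 L u : ℕ) (ε Θ η : ℝ) : Prop where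
  hN : Nrm a b K0 v
  hk : Fintype.card ι = k
  hk3 : 3 ≤ k
  hK : 2 * (k + 3) ≤ K0
  hvw : 2 * v ≤ w
  hw : 3 ≤ w
  hs : 1 ≤ s
  hM : 1 ≤ M1
  he1 : s * M1 ≤ e1
  hL : L = s + 2 * (s * M1 + e1)
  hu : u = 2 * L + 4
  hew : 3 * (2 * (s * M1 + e1)) ≤ w
  hε : 0 ≤ ε
  hΘ : Th w (w ^ e1) ≤ Θ
  hη : 0 ≤ η
  hδ : Θ ^ (5 * k + 8) *
    (3 * ε + 10 * (2 * (s * M1 + e1) : ℕ) / w + 20 * (k : ℝ) ^ 2 / w) ≤ η
  hE0 : Θ ^ (5 * k + 8) * ∑ T ∈ lev (GP a (w ^ e1)) (w ^ L), zc k ^ T.card ≤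
    η * (w ^ u * Vk a w)
  hE1 : ∀ x, ∃ E : Finset ℕ → ℝ, (∀ T ∈ lev (GP a (w ^ e1)) (w ^ L), ∀ c : ℕ,
      (∀ p ∈ T, ¬ p ∣ a x * c + b x) →
      |∑ n ∈ Ico (w ^ u) (2 * w ^ u), th (a x * n + b x) *
          (if n ≡ c [MOD ∏ p ∈ T, p] then 1 else 0) -
        (w : ℝ) ^ u * (∏ p ∈ (a x).primeFactors, (p : ℝ) / (p - 1)) *
          ∏ p ∈ T, (p : ℝ) / (p - 1) / p| ≤ E T) ∧ (∀ T, 0 ≤ E T) ∧
    Θ ^ (5 * k + 8) * ∑ T ∈ lev (GP a (w ^ e1)) (w ^ L), zc k ^ T.card * E T ≤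
      η * (w ^ u * Vk a w)

lemma th_nonneg (n : ℕ) : 0 ≤ th n := by
  unfold th; split_ifs; exacts [Real.log_natCast_nonneg n, le_rfl]

lemma prime_of_th {n : ℕ} (h : th n ≠ 0) : n.Prime := by
  by_contra h1; exact h (if_neg h1)

lemma one_le_hh (w R : ℕ) {Y : ℕ} (hY : 1 ≤ Y) : 1 ≤ hh w R Y := by
  have := single_le_sum (s := (PP w R).powerset)
    (f := fun U => if ∏ p ∈ U, p ≤ Y then ∏ p ∈ U, ((p : ℝ) - 1)⁻¹ else 0)
    (fun U hU => by
      split_ifs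
      · exact ip_nonneg (mem_powerset.1 hU)
      · exact le_rfl) (empty_mem_powerset _)
  simpa [hh, hY] using this

lemma Th_mono (w : ℕ) {R Y : ℕ} (h : R ≤ Y) : Th w R ≤ Th w Y := by
  rcases le_total w R with h1 | h1
  · unfold Th; rw [prod_PP_split h1 h]
    exact le_mul_of_one_le_right (zero_le_one.trans (one_le_Th w R)) (one_le_Th R Y)
  · have : PP w R = ∅ := by unfold PP; rw [Ioc_eq_empty (by omega)]; rfl
    rw [Th, this, prod_empty]; exact one_le_Th w Y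

namespace Sc

variable {a b : ι → ℕ} {K0 v k w s M1 e1 L u : ℕ} {ε Θ η : ℝ}
  (h : Sc a b K0 v k w s M1 e1 L u ε Θ η)
include h

lemma Rle : w ^ (s * M1) ≤ w ^ e1 := Nat.pow_le_pow_right (by have := h.hw; omega) h.he1

lemma wle : w ≤ w ^ e1 := Nat.le_self_pow (by have := h.he1; have := Nat.mul_pos h.hs h.hM; omega) w

lemma Vpos : 0 < Vk a w := by
  have : Nonempty ι := Fintype.card_pos_iff.1 (by have := h.hk; have := h.hk3; omega)
  exact h.hN.Vk_pos (by have := h.hk; have := h.hK; omega) (by have := h.hw; omega)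

lemma one_le_Θ : 1 ≤ Θ := (one_le_Th _ _).trans h.hΘ

lemma pow_le {j : ℕ} (hj : j ≤ 2) : Th w (w ^ (s * M1)) ^ j ≤ Θ ^ 2 :=
  (pow_le_pow_left₀ (zero_le_one.trans (one_le_Th _ _)) ((Th_mono w h.Rle).trans h.hΘ) j).trans
    (pow_le_pow_right₀ h.one_le_Θ hj)

lemma big {n : ℕ} (hn : n ∈ Ico (w ^ u) (2 * w ^ u)) (x : ι) : w ^ e1 < a x * n + b x := by
  have h1 : w ^ e1 < w ^ u :=
    Nat.pow_lt_pow_right (by have := h.hw; omega) (by have := h.hL; have := h.hu; omega)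
  have h2 := Nat.le_mul_of_pos_left n (h.hN.pos x)
  have := (mem_Ico.1 hn).1
  omega

lemma nd {n : ℕ} (hn : n ∈ Ico (w ^ u) (2 * w ^ u)) {x : ι} (hx : th (a x * n + b x) ≠ 0) {p : ℕ}
    (hp : p.Prime) (hp' : p ≤ w ^ e1) : ¬ p ∣ a x * n + b x := fun hd => by
  have := (Nat.prime_dvd_prime_iff_eq hp (prime_of_th hx)).1 hd
  have := h.big hn x
  omega

lemma th_le {n : ℕ} (hn : n ∈ Ico (w ^ u) (2 * w ^ u)) (x : ι) :
    th (a x * n + b x) ≤ (u + 1) * Real.log w := by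
  have h1 : a x * n + b x ≤ w ^ (u + 1) := by
    have a1 := h.hN.lt x
    have a2 := (mem_Ico.1 hn).2
    calc _ ≤ a x * (n + 1) := by rw [mul_add, mul_one]; omega
      _ ≤ v * (2 * w ^ u) := Nat.mul_le_mul (h.hN.le x) a2
      _ = 2 * v * w ^ u := by ring
      _ ≤ _ := by rw [pow_succ']; exact Nat.mul_le_mul_right _ h.hvw
  have h2 : Real.log (a x * n + b x : ℕ) ≤ (u + 1) * Real.log w := by
    have h0 : 0 < a x * n + b x := (Nat.zero_le _).trans_lt (h.big hn x)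
    refine (Real.log_le_log (by exact_mod_cast h0)
      (show ((a x * n + b x : ℕ) : ℝ) ≤ (w : ℝ) ^ (u + 1) by exact_mod_cast h1)).trans_eq ?_
    rw [Real.log_pow]; push_cast; ring
  unfold th
  split_ifs
  · exact h2
  · have := Real.log_natCast_nonneg w; positivity

lemma lev1 : w ^ s * (w ^ (s * M1) * w ^ e1) ^ 2 ≤ w ^ L := by
  rw [← pow_add, ← pow_mul, ← pow_add, h.hL, mul_comm _ 2]

lemma lev2 : (w ^ (s * M1) * w ^ e1) ^ 2 ≤ w ^ (2 * (s * M1 + e1)) := by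
  rw [← pow_add, ← pow_mul, mul_comm _ 2]

lemma est0 (hM : S_Mst) (sv : SieveW (GP a w) (w ^ s) (k + 3) ε) (J : ℕ) :
    ∑ n ∈ Ico (w ^ u) (2 * w ^ u), sv.U (fun p => ev a b univ p n) *
      Fw a b w s J (w ^ (s * M1)) univ n ^ 2 ≤
      w ^ u * Vk a w * (JJ w s J (w ^ (s * M1)) (univ : Finset ι) + 2 * η) := by
  have hw0 : 0 < w ^ e1 := pow_pos (by have := h.hw; omega) _
  have h1 := hM ι a b K0 v k w _ _ _ _ _ _ (Ico (w ^ u) (2 * w ^ u)) (fun _ => 1) ∅ univ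
    ((w : ℝ) ^ u) ε Θ (fun _ => 1) sv (yI w s J (w ^ (s * M1)) univ) h.hN h.hk h.hk3 h.hK
    (by have := h.hvw; omega) h.hw h.wle h.Rle (by simp) (by simp) (by positivity) h.hε h.hΘ
    (by simp) (fun T hT c _ => by
      have hT' : ∀ p ∈ T, p.Prime := fun p hp =>
        (mem_GP.1 (mem_powerset.1 (mem_filter.1 hT).1 hp)).2.1
      have h2 := count_class (q := ∏ p ∈ T, p) (prod_pos fun p hp => (hT' p hp).pos) c
        (show w ^ u ≤ 2 * w ^ u by omega)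
      refine le_trans (le_of_eq ?_) h2
      simp only [one_mul, card_empty, Nat.cast_zero, sub_zero]
      congr 2
      rw [prod_congr rfl fun p hp => by
        rw [div_self (show (p : ℝ) ≠ 0 by exact_mod_cast (hT' p hp).ne_zero)], prod_div_distrib,
        prod_const_one]
      push_cast; ring) (fun _ => zero_le_one)
    (fun U _ => (abs_yI_le _ _ _ _ _ _).trans (h.pow_le (by simp)))
    (fun U hU h0 => (yI_supp hU h0).trans (Nat.le_mul_of_pos_right _ hw0)) h.lev2 h.hew h.lev1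
  have e1 : ∏ p ∈ GP a w, (p : ℝ) / (p - ((∅ : Finset ι).card : ℕ)) = 1 :=
    prod_eq_one fun p hp => by
      rw [card_empty, Nat.cast_zero, sub_zero,
        div_self (show (p : ℝ) ≠ 0 by exact_mod_cast (mem_GP.1 hp).2.1.ne_zero)]
  rw [e1] at h1
  simp only [one_mul, mul_one] at h1
  have h2 := mul_le_mul_of_nonneg_left h.hδ
    (show 0 ≤ (w : ℝ) ^ u * Vk a w by have := h.Vpos; positivity)
  have h3 := h.hE0
  have h4 := (abs_le.1 h1).2
  unfold Fw JJ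
  linarith

lemma estP (hM : S_Mst) (sv : SieveW (GP a w) (w ^ s) (k + 3) ε) (x : ι) {R : ℕ} (hR : R ≤ w ^ e1)
    {I : Finset ι} (hI : x ∉ I) {y : Finset (ℕ × ι) → ℝ} (hy : ∀ U ⊆ AA w R I, |y U| ≤ Θ ^ 2)
    (hyZ : ∀ U ⊆ AA w R I, y U ≠ 0 → dd Prod.fst U ≤ w ^ (s * M1) * w ^ e1) :
    |∑ n ∈ Ico (w ^ u) (2 * w ^ u), th (a x * n + b x) * (sv.U (fun p => ev a b univ p n) *
      FF Prod.fst (AA w R I) y (BB a b n) ^ 2) -
      w ^ u * Vk a w * (VV w)⁻¹ * diag Prod.fst (AA w R I) y| ≤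
      w ^ u * Vk a w * (VV w)⁻¹ * (2 * η) := by
  obtain ⟨E, h1, h2, h3⟩ := h.hE1 x
  have hp0 : 0 ≤ ∏ p ∈ (a x).primeFactors, (p : ℝ) / (p - 1) := prod_nonneg fun p hp => by
    have : (2 : ℝ) ≤ p := by exact_mod_cast (Nat.prime_of_mem_primeFactors hp).two_le
    exact div_nonneg (by linarith) (by linarith)
  have h4 := hM ι a b K0 v k w R _ _ _ _ _ (Ico (w ^ u) (2 * w ^ u))
    (fun n => th (a x * n + b x)) {x} I
    ((w : ℝ) ^ u * ∏ p ∈ (a x).primeFactors, (p : ℝ) / (p - 1)) ε Θ E sv y h.hN h.hk h.hk3 h.hK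
    (by have := h.hvw; omega) h.hw h.wle hR (by simp) (by simpa using hI) (by positivity) h.hε h.hΘ
    (fun n hn h0 p hp l hl => by
      rw [mem_singleton.1 hl]; exact h.nd hn h0 (mem_GP.1 hp).2.1 (mem_GP.1 hp).1)
    (fun T hT c hc => by
      simpa only [card_singleton, Nat.cast_one] using
        h1 T hT c fun p hp => hc p hp x (mem_singleton_self x)) h2 hy hyZ h.lev2 h.hew h.lev1
  have e1 : (w : ℝ) ^ u * (∏ p ∈ (a x).primeFactors, (p : ℝ) / (p - 1)) *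
      (∏ p ∈ GP a w, (p : ℝ) / (p - (({x} : Finset ι).card : ℕ))) * Vk a w =
      w ^ u * Vk a w * (VV w)⁻¹ := by
    rw [card_singleton, Nat.cast_one, mul_assoc ((w : ℝ) ^ u),
      h.hN.prod_split x (by have := h.hvw; omega) (fun p => (p : ℝ) / (p - 1)), VV,
      ← prod_inv_distrib, mul_right_comm]
    congr 1
    refine prod_congr rfl fun p hp => ?_
    have := PP_two hp
    have h5 : (p : ℝ) - 1 ≠ 0 := by linarith
    field_simp
  rw [e1] at h4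
  have hκ : 1 ≤ (VV w)⁻¹ := (one_le_inv₀ (VV_pos w)).2 (VV_le_one w)
  have h5 : 0 ≤ (w : ℝ) ^ u * Vk a w := by have := h.Vpos; positivity
  have h6 := mul_le_mul_of_nonneg_left h.hδ
    (show 0 ≤ (w : ℝ) ^ u * Vk a w * (VV w)⁻¹ by positivity)
  have h7 := mul_le_mul_of_nonneg_left hκ (mul_nonneg h.hη h5)
  linarith

lemma est1 (hM : S_Mst) (sv : SieveW (GP a w) (w ^ s) (k + 3) ε) (J : ℕ) (x : ι) :
    w ^ u * Vk a w * (VV w)⁻¹ * (JJ w s J (w ^ (s * M1)) ({x}ᶜ : Finset ι) - 2 * η) ≤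
    ∑ n ∈ Ico (w ^ u) (2 * w ^ u), th (a x * n + b x) * (sv.U (fun p => ev a b univ p n) *
      Fw a b w s J (w ^ (s * M1)) univ n ^ 2) := by
  have hw0 : 0 < w ^ e1 := pow_pos (by have := h.hw; omega) _
  have h1 := h.estP hM sv x h.Rle (I := {x}ᶜ) (by simp) (y := yI w s J (w ^ (s * M1)) {x}ᶜ)
    (fun U _ => (abs_yI_le _ _ _ _ _ _).trans (h.pow_le (by simp)))
    (fun U hU h0 => (yI_supp hU h0).trans (Nat.le_mul_of_pos_right _ hw0))
  have h2 := (abs_le.1 h1).1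
  have e : ∑ n ∈ Ico (w ^ u) (2 * w ^ u), th (a x * n + b x) * (sv.U (fun p => ev a b univ p n) *
      Fw a b w s J (w ^ (s * M1)) univ n ^ 2) =
      ∑ n ∈ Ico (w ^ u) (2 * w ^ u), th (a x * n + b x) * (sv.U (fun p => ev a b univ p n) *
      Fw a b w s J (w ^ (s * M1)) {x}ᶜ n ^ 2) := by
    refine sum_congr rfl fun n hn => ?_
    by_cases h0 : th (a x * n + b x) = 0
    · rw [h0, zero_mul, zero_mul]
    rw [Fw_collapse a b w s J _ (subset_univ {x}ᶜ) fun l _ hl p hp => by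
      have : l = x := by simpa using hl
      rw [this]; exact h.nd hn h0 (PP_prime hp) ((mem_PP.1 hp).2.1.trans h.Rle)]
  rw [e]
  unfold Fw JJ
  linarith

open Classical in
lemma est2 (hM : S_Mst) (hP : S_Pair) (sv : SieveW (GP a w) (w ^ s) (k + 3) ε) (J : ℕ) {x y : ι}
    (hxy : x ≠ y) :
    ∑ n ∈ Ico (w ^ u) (2 * w ^ u), th (a x * n + b x) *
      (if th (a y * n + b y) ≠ 0 then 1 else 0) * (sv.U (fun p => ev a b univ p n) *
      Fw a b w s J (w ^ (s * M1)) univ n ^ 2) ≤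
    w ^ u * Vk a w * (VV w)⁻¹ * (JJ w s J (w ^ (s * M1)) ({x, y}ᶜ : Finset ι) + 2 * η) /
      hh w (w ^ e1) (w ^ e1) := by
  have hw0 : 0 < w ^ e1 := pow_pos (by have := h.hw; omega) _
  obtain ⟨p1, p2, p3, p4⟩ := hP ι w s J (w ^ (s * M1)) (w ^ e1) {x, y}ᶜ y (by simp) h.Rle
  have h1 := h.estP hM sv x le_rfl (I := insert y {x, y}ᶜ) (by simp [hxy])
    (fun U _ => (p1 U).trans (h.pow_le (by rw [compl_compl]; exact card_le_two))) p2
  rw [p3] at h1
  have h2 := (abs_le.1 h1).2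
  have hG := one_le_hh w (w ^ e1) hw0
  set G := hh w (w ^ e1) (w ^ e1)
  have h3 : G ^ 2 * ∑ n ∈ Ico (w ^ u) (2 * w ^ u), th (a x * n + b x) *
      (if th (a y * n + b y) ≠ 0 then 1 else 0) * (sv.U (fun p => ev a b univ p n) *
      Fw a b w s J (w ^ (s * M1)) univ n ^ 2) ≤
      ∑ n ∈ Ico (w ^ u) (2 * w ^ u), th (a x * n + b x) * (sv.U (fun p => ev a b univ p n) *
      FF Prod.fst (AA w (w ^ e1) (insert y {x, y}ᶜ))
        (y2 w s J (w ^ (s * M1)) (w ^ e1) {x, y}ᶜ y) (BB a b n) ^ 2) := by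
    rw [mul_sum]
    refine sum_le_sum fun n hn => ?_
    by_cases h0 : th (a x * n + b x) = 0
    · rw [h0]; simp
    by_cases h4 : th (a y * n + b y) = 0
    · rw [if_neg (not_not.2 h4), mul_zero, zero_mul, mul_zero]
      exact mul_nonneg (th_nonneg _) (mul_nonneg
        (sv.U_nonneg fun p _ => ⟨ev_nonneg _ _ _, ev_le_one _ _ _⟩) (sq_nonneg _))
    rw [if_pos h4, p4 _ fun p hp => ev_eq_zero.2 fun l hl => by
        rw [mem_singleton.1 hl]; exact h.nd hn h4 (PP_prime hp) (mem_PP.1 hp).2.1,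
      Fw_collapse a b w s J _ (subset_univ {x, y}ᶜ) fun l _ hl p hp => by
        have h5 : l = x ∨ l = y := by
          simpa only [mem_compl, not_not, mem_insert, mem_singleton] using hl
        rcases h5 with rfl | rfl
        · exact h.nd hn h0 (PP_prime hp) ((mem_PP.1 hp).2.1.trans h.Rle)
        · exact h.nd hn h4 (PP_prime hp) ((mem_PP.1 hp).2.1.trans h.Rle)]
    unfold Fw
    exact le_of_eq (by ring)
  have h5 : 0 ≤ (w : ℝ) ^ u * Vk a w * (VV w)⁻¹ * (2 * η) := by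
    have := h.Vpos; have := VV_pos w; have := h.hη; positivity
  have h6 := mul_le_mul_of_nonneg_left hG h5
  rw [le_div_iff₀ (by linarith)]
  refine le_of_mul_le_mul_left ?_ (show 0 < G by linarith)
  linarith

end Sc

end Pool.Agent.P.MP_746f10_nt.Cel
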